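import Pool.Agent.N824.CR.Loc

/-!
# Smoothing of families of coarsely monotone maps
-/

set_option autoImplicit false
set_option maxSynthPendingDepth 3

open Set Filter Topology Metric Function MeasureTheory
open scoped Manifold ContDiff Convolution

noncomputable section

namespace Pool.Agent.N824.CR

open Pool.Agent.Y522 Pool.Agent.Y954.SH

variable {n : ℕ} {X : Type} [TopologicalSpace X] [ChartedSpace (E n) X]

/-- the constant -/
def CC (n : ℕ) : ℝ := C1 n + 4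

/-- the family `F` is coarsely monotone at `x` at the scales of `S` -/
def CMt (n : ℕ) {X : Type} [TopologicalSpace X] [ChartedSpace (E n) X] (d : X → X → ℝ)
    (S : Set ℝ) (F : ℝ → X → E n) (x : X) : Prop :=
  ∃ (A : E n → X) (κ ε ρ : ℝ) (H : ℝ → ℝ), A 0 = x ∧ LD n A 0 ∧ 1 ≤ κ ∧ 0 ≤ ε ∧
    CC n * (κ ^ 2 * ε) ≤ 1 ∧ 0 < ρ ∧ (∀ r, 1 ≤ H r) ∧
    Tendsto (fun r => r * H r) (𝓝[>] 0) (𝓝 0) ∧
    (∀ p q, ‖p‖ < ρ → ‖q‖ < ρ →
      d (A p) (A q) ≤ κ * ‖p - q‖ ∧ ‖p - q‖ ≤ κ * d (A p) (A q)) ∧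
    ∀ p, ‖p‖ < ρ → ∀ r ∈ S, 0 < r → r < ρ → CM1 n (fun z => F r (A z)) p κ ε (H r) r

theorem CMt.exists_cht {d : X → X → ℝ} {S : Set ℝ} {F : ℝ → X → E n} {x : X}
    (h : CMt n d S F x) : ∃ (A : E n → X) (B : X → E n) (R κ ε : ℝ) (H : ℝ → ℝ),
      x ∈ A '' ball 0 R ∧ IsCht n d A B R κ ∧ 0 ≤ ε ∧ C1 n * κ ^ 2 * ε ≤ 1 ∧ ε ≤ 1 / 4 ∧
      (∀ r, 1 ≤ H r) ∧ Tendsto (fun r => r * H r) (𝓝[>] 0) (𝓝 0) ∧
      ∀ p, ‖p‖ < R → ∀ r ∈ S, 0 < r → r < R →
        CM1 n (fun z => F r (A z)) p κ ε (H r) r := by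
  classical
  obtain ⟨A, κ, ε, ρ, H, hA0, hA, hκ, hε0, hε1, hρ, hH1, hHl, hd, hAA⟩ := h
  obtain ⟨u, hu, hinj⟩ := hA.eventually_injOn
  obtain ⟨r1, hr1, hball⟩ := (nhds_basis_closedBall (x := (0 : E n))).mem_iff.mp
    (Filter.inter_mem hu hA.eventually)
  have hinj' : InjOn A (closedBall 0 r1) := hinj.mono fun z hz => (hball hz).1
  have hκ2 : 1 ≤ κ ^ 2 := one_le_pow₀ hκ
  have hκε : ε ≤ κ ^ 2 * ε := by nlinarith
  have hC := C1_nonneg n
  have hκε0 : 0 ≤ κ ^ 2 * ε := by positivity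
  unfold CC at hε1
  refine ⟨A, invFunOn A (closedBall 0 r1), min r1 (ρ / 2), κ, ε, H, ?_, ?_, hε0,
    by nlinarith, by nlinarith, hH1, hHl, ?_⟩
  · refine ⟨0, ?_, hA0⟩
    rw [mem_ball_zero_iff, norm_zero]
    exact lt_min hr1 (by linarith)
  · have hle : ∀ z : E n, ‖z‖ ≤ min r1 (ρ / 2) → z ∈ closedBall (0 : E n) r1 := fun z hz => by
      rw [mem_closedBall_zero_iff]
      exact hz.trans (min_le_left _ _)
    have hlt : ∀ z : E n, ‖z‖ ≤ min r1 (ρ / 2) → ‖z‖ < ρ := fun z hz => by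
      have := hz.trans (min_le_right _ _)
      linarith
    exact {
      pos := lt_min hr1 (by linarith)
      one := hκ
      ld := fun z hz => (hball (hle z hz)).2
      left := fun z hz => hinj'.leftInvOn_invFunOn (hle z hz)
      up := fun p q hp hq => (hd p q (hlt p hp) (hlt q hq)).1
      low := fun p q hp hq => (hd p q (hlt p hp) (hlt q hq)).2 }
  · intro p hp r hr h0 hrR
    refine hAA p ?_ r hr h0 ?_
    · have := hp.trans_le (min_le_right _ _)
      linarith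
    · have := hrR.trans_le (min_le_right _ _)
      linarith

theorem int_chart [MeasurableSpace X] [BorelSpace X] {d : X → X → ℝ} {A : E n → X} {B : X → E n}
    {R κ : ℝ} (h : IsCht n d A B R κ) {F : X → E n} (hF : Measurable F)
    (hb : ∃ b : ℝ, ∀ x, ‖F x‖ ≤ b) : IntegrableOn (fun z => F (A z)) (closedBall 0 R) := by
  obtain ⟨b, hb⟩ := hb
  have h1 : AEMeasurable A (volume.restrict (closedBall 0 R)) :=
    h.contOn.aemeasurable measurableSet_closedBall
  have h2 : AEStronglyMeasurable (fun z => F (A z)) (volume.restrict (closedBall 0 R)) :=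
    (hF.comp_aemeasurable h1).aestronglyMeasurable
  have : IsFiniteMeasure ((volume : Measure (E n)).restrict (closedBall 0 R)) :=
    ⟨by rw [Measure.restrict_apply_univ]; exact measure_closedBall_lt_top⟩
  exact Integrable.of_bound h2 b (Eventually.of_forall fun z => hb _)

/-- smoothing of families of coarsely monotone maps -/
theorem glob [T2Space X] [LocallyCompactSpace X] [SecondCountableTopology X]
    [IsManifold (𝓡 n) ∞ X] (F : ℝ → X → E n) (Fb : X → E n) (V : Set X) (d : X → X → ℝ)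
    [MeasurableSpace X] [BorelSpace X]
    (S : Set ℝ) (hS : (0 : ℝ) ∈ closure (S ∩ Ioi 0)) (hFm : ∀ r ∈ S, Measurable (F r))
    (hFB : ∀ r ∈ S, ∃ b : ℝ, ∀ x, ‖F r x‖ ≤ b)
    (hV : IsOpen V) (hLDb : ∀ x ∈ V, LD n Fb x) (hFeq : ∀ r ∈ S, ∀ x ∈ V, F r x = Fb x)
    (hbad : ∀ x, x ∉ V → CMt n d S F x) (hK : IsCompact Vᶜ) :
    ∃ (F' : X → E n) (C : Set X), IsCompact C ∧ (∀ x, x ∉ C → x ∈ V ∧ F' x = Fb x) ∧
      ∀ x, LD n F' x := by
  classical
  have hch := fun x : {x : X // x ∉ V} => (hbad x.1 x.2).exists_cht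
  choose A B R κ ε H hxA hcht hε0 hε1 hε4 hH1 hHl hcm using hch
  obtain ⟨t, ht⟩ := hK.elim_finite_subcover (fun x : {x : X // x ∉ V} => A x '' ball 0 (R x))
    (fun x => (hcht x).isOpen) (fun x hx => mem_iUnion.2 ⟨⟨x, hx⟩, hxA ⟨x, hx⟩⟩)
  have hU : IsOpen (⋃ i : t, A i '' ball 0 (R i)) := isOpen_iUnion fun i => (hcht i).isOpen
  have ht' : Vᶜ ⊆ ⋃ i : t, A i '' ball 0 (R i) := by
    intro x hx
    obtain ⟨i, hi⟩ := mem_iUnion.1 (ht hx)
    obtain ⟨hi1, hi2⟩ := mem_iUnion.1 hi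
    exact mem_iUnion.2 ⟨⟨i, hi1⟩, hi2⟩
  obtain ⟨K', hK', hKK', hK'U⟩ := exists_compact_between hK hU ht'
  obtain ⟨f, hf⟩ := SmoothPartitionOfUnity.exists_isSubordinate (𝓡 n) hK'.isClosed
    (fun i : t => A i '' ball 0 (R i)) (fun i => (hcht i).isOpen) hK'U
  have hfam : Fam n t d F Fb V S (fun i => A i) (fun i => B i) (fun i => R i) (fun i => κ i)
      (fun i => ε i) (fun i => H i) (fun i x => f i x) :=
    { oV := hV
      LDb := hLDb
      Feq := hFeq
      cht := fun i => hcht i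
      iF := fun i r hr => int_chart (hcht i) (hFm r hr) (hFB r hr)
      cm := fun i => hcm i
      ε0 := fun i => hε0 i
      ε1 := fun i => hε1 i
      ε4 := fun i => hε4 i
      H1 := fun i => hH1 i
      Hlim := fun i => hHl i
      sm := fun i => (f i).contMDiff
      nn := fun i x => f.nonneg i x
      le := fun x => by
        rw [← finsum_eq_sum_of_fintype]
        exact f.sum_le_one x
      sup := fun i => hf i }
  have hsum : ∀ x ∈ K', ∑ i, f i x = 1 := fun x hx => by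
    rw [← finsum_eq_sum_of_fintype]
    exact f.sum_eq_one hx
  obtain ⟨C, hC⟩ : ∃ C, C = ⋃ i : t, tsupport (f i) := ⟨_, rfl⟩
  have hCc : IsCompact C := by
    rw [hC]
    refine isCompact_iUnion fun i => ?_
    refine ((isCompact_closedBall (0 : E n) (R i)).image_of_continuousOn
      (hcht i).contOn).of_isClosed_subset (isClosed_tsupport _) ?_
    exact (hf i).trans (image_mono ball_subset_closedBall)
  obtain ⟨G, hG⟩ : ∃ G : ℝ → X → E n, G = fun r x => Gr (F r) (fun i : t => A i) (fun i => B i)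
    (fun i => R i) (fun i x => f i x) r x := ⟨_, rfl⟩
  have hloc : ∀ x0 ∈ C, ∀ᶠ z : ℝ × X in 𝓝[S ∩ Ioi 0] (0 : ℝ) ×ˢ 𝓝 x0,
      LD n (G z.1) z.2 := by
    intro x0 hx0
    rw [hG]
    refine hfam.loc ?_ ?_
    · rw [hC] at hx0
      exact mem_iUnion.1 hx0
    · by_cases h : x0 ∈ V
      · exact Or.inr h
      · left
        filter_upwards [isOpen_interior.mem_nhds (hKK' h)] with x hx
        exact hsum x (interior_subset hx)
  have hne : (𝓝[S ∩ Ioi 0] (0 : ℝ)).NeBot := mem_closure_iff_nhdsWithin_neBot.1 hS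
  have hall : ∀ᶠ r in 𝓝[S ∩ Ioi 0] (0 : ℝ), ∀ x ∈ C, LD n (G r) x := by
    have h1 : {z : ℝ × X | LD n (G z.1) z.2} ∈
        𝓝[S ∩ Ioi 0] (0 : ℝ) ×ˢ 𝓝ˢ C := hCc.mem_prod_nhdsSet_of_forall hloc
    obtain ⟨u, hu, v, hv, huv⟩ := Filter.mem_prod_iff.1 h1
    filter_upwards [hu] with r hr x hx
    exact huv (mk_mem_prod hr (subset_of_mem_nhdsSet hv hx))
  have hallS : ∀ᶠ r in 𝓝[S ∩ Ioi 0] (0 : ℝ), r ∈ S := by
    filter_upwards [self_mem_nhdsWithin] with r hr
    exact hr.1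
  obtain ⟨r, hr, hrS⟩ := (hall.and hallS).exists
  have hCV : ∀ x, x ∉ C → x ∈ V := by
    intro x hx
    by_contra h
    apply hx
    have h2 := hsum x (interior_subset (hKK' h))
    have h3 : ∃ i : t, f i x ≠ 0 := by
      by_contra hcon
      push Not at hcon
      simp [hcon] at h2
    obtain ⟨i, hi⟩ := h3
    rw [hC]
    exact mem_iUnion.2 ⟨i, subset_tsupport _ hi⟩
  have hoff : ∀ x, x ∉ C → G r x = Fb x := by
    intro x hx
    have h0 : ∀ i : t, f i x = 0 := by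
      intro i
      by_contra h
      apply hx
      rw [hC]
      exact mem_iUnion.2 ⟨i, subset_tsupport _ h⟩
    rw [hG]
    show Gr (F r) (fun i : t => A i) (fun i => B i)
      (fun i => R i) (fun i x => f i x) r x = Fb x
    unfold Gr
    rw [Fintype.sum_option]
    have e1 : Xo (fun (i : t) x => f i x) none x = 1 := by
      show 1 - ∑ i, f i x = 1
      simp [h0]
    rw [e1, one_smul]
    show F r x + ∑ i : t, f i x • _ = Fb x
    rw [hFeq r hrS x (hCV x hx)]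
    simp [h0]
  refine ⟨G r, C, hCc, fun x hx => ⟨hCV x hx, hoff x hx⟩, fun x => ?_⟩
  by_cases hx : x ∈ C
  · exact hr x hx
  · refine (hLDb x (hCV x hx)).congr ?_
    filter_upwards [hCc.isClosed.isOpen_compl.mem_nhds hx] with y hy
    exact hoff y hy

end Pool.Agent.N824.CR
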