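import Pool.Agent.N824.CR.Local
import Pool.Agent.Y522.Tools

/-!
# Charts which are bi-Lipschitz for a metric
-/

set_option autoImplicit false
set_option maxSynthPendingDepth 3

open Set Filter Topology Metric Function MeasureTheory
open scoped Manifold ContDiff Convolution

noncomputable section

namespace Pool.Agent.N824.CR

open Pool.Agent.Y522 Pool.Agent.Y954.SH

variable {n : ℕ} {X : Type} [TopologicalSpace X] [ChartedSpace (E n) X]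

/-- a parametrized chart which is `κ`-bi-Lipschitz for `d` -/
structure IsCht (n : ℕ) {X : Type} [TopologicalSpace X] [ChartedSpace (E n) X]
    (d : X → X → ℝ) (A : E n → X) (B : X → E n) (R κ : ℝ) : Prop where
  pos : 0 < R
  one : 1 ≤ κ
  ld : ∀ z, ‖z‖ ≤ R → LD n A z
  left : ∀ z, ‖z‖ ≤ R → B (A z) = z
  up : ∀ p q, ‖p‖ ≤ R → ‖q‖ ≤ R → d (A p) (A q) ≤ κ * ‖p - q‖
  low : ∀ p q, ‖p‖ ≤ R → ‖q‖ ≤ R → ‖p - q‖ ≤ κ * d (A p) (A q)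

namespace IsCht

variable {d : X → X → ℝ} {A A1 A2 : E n → X} {B B1 B2 : X → E n} {R R1 R2 κ κ1 κ2 : ℝ}

theorem isOpen (h : IsCht n d A B R κ) : IsOpen (A '' ball 0 R) :=
  isOpen_image_of_LD isOpen_ball fun z hz => h.ld z (mem_ball_zero_iff.1 hz).le

theorem mem (h : IsCht n d A B R κ) {x : X} (hx : x ∈ A '' ball 0 R) : ‖B x‖ < R := by
  obtain ⟨z, hz, rfl⟩ := hx
  rw [mem_ball_zero_iff] at hz
  rw [h.left z hz.le]
  exact hz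

theorem right (h : IsCht n d A B R κ) {x : X} (hx : x ∈ A '' ball 0 R) : A (B x) = x := by
  obtain ⟨z, hz, rfl⟩ := hx
  rw [mem_ball_zero_iff] at hz
  rw [h.left z hz.le]

theorem ldB (h : IsCht n d A B R κ) {x : X} (hx : x ∈ A '' ball 0 R) : LD n B x := by
  obtain ⟨z, hz, rfl⟩ := hx
  exact LD.inverse (k := A) (U := ball 0 R) isOpen_ball
    (fun z hz => h.ld z (mem_ball_zero_iff.1 hz).le)
    (fun z hz => h.left z (mem_ball_zero_iff.1 hz).le) hz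

theorem contOn (h : IsCht n d A B R κ) : ContinuousOn A (closedBall 0 R) := fun z hz =>
  (h.ld z (mem_closedBall_zero_iff.1 hz)).continuousAt.continuousWithinAt

/-- transition maps -/
theorem trans (h1 : IsCht n d A1 B1 R1 κ1) (h2 : IsCht n d A2 B2 R2 κ2) {x0 : X}
    (hx1 : x0 ∈ A1 '' ball 0 R1) (hx2 : x0 ∈ A2 '' ball 0 R2) {ε : ℝ} (hε : 0 < ε) :
    ∃ ρ : ℝ, 0 < ρ ∧ (∀ p, ‖p - B1 x0‖ < ρ → ‖p‖ < R1 ∧ A1 p ∈ A2 '' ball 0 R2 ∧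
        LD n (fun z => B2 (A1 z)) p ∧
        ‖fderiv ℝ (fun z => B2 (A1 z)) p - fderiv ℝ (fun z => B2 (A1 z)) (B1 x0)‖ ≤ ε ∧
        ‖fderiv ℝ (fun z => B2 (A1 z)) p‖ ≤ κ1 * κ2) ∧
      ∀ p q, ‖p - B1 x0‖ < ρ → ‖q - B1 x0‖ < ρ →
        ‖B2 (A1 q) - B2 (A1 p) - fderiv ℝ (fun z => B2 (A1 z)) (B1 x0) (q - p)‖ ≤ ε * ‖q - p‖ ∧
        ‖B2 (A1 q) - B2 (A1 p)‖ ≤ κ1 * κ2 * ‖q - p‖ := by
  have hp0 : ‖B1 x0‖ < R1 := h1.mem hx1
  have hA0 : A1 (B1 x0) = x0 := h1.right hx1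
  obtain ⟨T, hT⟩ : ∃ T, T = fderiv ℝ (fun z => B2 (A1 z)) (B1 x0) := ⟨_, rfl⟩
  rw [← hT]
  have e1 : ∀ᶠ p in 𝓝 (B1 x0), ‖p‖ < R1 ∧ A1 p ∈ A2 '' ball 0 R2 := by
    have e0 : ∀ᶠ p : E n in 𝓝 (B1 x0), ‖p‖ < R1 :=
      (isOpen_lt continuous_norm continuous_const).mem_nhds hp0
    refine e0.and ?_
    refine (h1.ld _ hp0.le).continuousAt.preimage_mem_nhds ?_
    rw [hA0]
    exact h2.isOpen.mem_nhds hx2
  have hld0 : LD n (fun z => B2 (A1 z)) (B1 x0) := by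
    refine LD.comp_fun (g := B2) (f := A1) ?_ (h1.ld _ hp0.le)
    rw [hA0]
    exact h2.ldB hx2
  have hst : HasStrictFDerivAt (fun z => B2 (A1 z)) T (B1 x0) := by
    rw [hT]
    exact hld0.contDiffAt.hasStrictFDerivAt (by simp)
  have e2 : ∀ᶠ z : E n × E n in 𝓝 (B1 x0, B1 x0),
      ‖B2 (A1 z.1) - B2 (A1 z.2) - T (z.1 - z.2)‖ ≤ ε * ‖z.1 - z.2‖ :=
    hst.isLittleO.def hε
  rw [nhds_prod_eq, Filter.eventually_prod_self_iff'] at e2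
  obtain ⟨t, ht, htt⟩ := e2
  obtain ⟨ρ, hρ, hb⟩ := Metric.mem_nhds_iff.1 (Filter.inter_mem e1 ht)
  have hb' : ∀ p, ‖p - B1 x0‖ < ρ → (‖p‖ < R1 ∧ A1 p ∈ A2 '' ball 0 R2) ∧ p ∈ t := by
    intro p hp
    exact hb (by rwa [mem_ball, dist_eq_norm])
  have hlip : ∀ p q, ‖p - B1 x0‖ < ρ → ‖q - B1 x0‖ < ρ →
      ‖B2 (A1 q) - B2 (A1 p)‖ ≤ κ1 * κ2 * ‖q - p‖ := by
    intro p q hp hq
    obtain ⟨⟨a1, a2⟩, -⟩ := hb' p hp
    obtain ⟨⟨b1, b2⟩, -⟩ := hb' q hq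
    have c1 := h2.low (B2 (A1 q)) (B2 (A1 p)) (h2.mem b2).le (h2.mem a2).le
    rw [h2.right a2, h2.right b2] at c1
    have c2 := h1.up q p b1.le a1.le
    have c3 := h2.one
    calc ‖B2 (A1 q) - B2 (A1 p)‖ ≤ κ2 * d (A1 q) (A1 p) := c1
      _ ≤ κ2 * (κ1 * ‖q - p‖) := by gcongr
      _ = κ1 * κ2 * ‖q - p‖ := by ring
  have hstr : ∀ p q, ‖p - B1 x0‖ < ρ → ‖q - B1 x0‖ < ρ →
      ‖B2 (A1 q) - B2 (A1 p) - T (q - p)‖ ≤ ε * ‖q - p‖ := by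
    intro p q hp hq
    exact htt q (hb' q hq).2 p (hb' p hp).2
  refine ⟨ρ, hρ, ?_, fun p q hp hq => ⟨hstr p q hp hq, hlip p q hp hq⟩⟩
  intro p hp
  obtain ⟨⟨a1, a2⟩, -⟩ := hb' p hp
  have hld : LD n (fun z => B2 (A1 z)) p :=
    LD.comp_fun (g := B2) (f := A1) (h2.ldB a2) (h1.ld _ a1.le)
  have hfd : HasFDerivAt (fun z => B2 (A1 z)) (fderiv ℝ (fun z => B2 (A1 z)) p) p :=
    (hld.contDiffAt.differentiableAt (by simp)).hasFDerivAt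
  have hev : ∀ᶠ q in 𝓝 p, ‖q - B1 x0‖ < ρ := by
    have : Continuous fun q : E n => ‖q - B1 x0‖ := by fun_prop
    exact (isOpen_lt this continuous_const).mem_nhds hp
  have h1' := h1.one
  have h2' := h2.one
  refine ⟨a1, a2, hld, ?_, ?_⟩
  · have h3 : HasFDerivAt (fun z => B2 (A1 z) - T z) (fderiv ℝ (fun z => B2 (A1 z)) p - T) p :=
      hfd.sub T.hasFDerivAt
    refine h3.le_of_lip' hε.le ?_
    filter_upwards [hev] with q hq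
    have := hstr p q hp hq
    rw [map_sub] at this
    refine le_of_eq_of_le ?_ this
    congr 1
    abel
  · refine hfd.le_of_lip' (by positivity) ?_
    filter_upwards [hev] with q hq
    exact hlip p q hp hq

end IsCht

theorem strict_ball {f : E n → E n} {p0 : E n} (hf : ContDiffAt ℝ ∞ f p0) {ε : ℝ} (hε : 0 < ε) :
    ∃ ρ : ℝ, 0 < ρ ∧ (∀ p, ‖p - p0‖ < ρ → DifferentiableAt ℝ f p →
        ‖fderiv ℝ f p - fderiv ℝ f p0‖ ≤ ε) ∧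
      ∀ p q, ‖p - p0‖ < ρ → ‖q - p0‖ < ρ →
        ‖f q - f p - fderiv ℝ f p0 (q - p)‖ ≤ ε * ‖q - p‖ := by
  have hst : HasStrictFDerivAt f (fderiv ℝ f p0) p0 := hf.hasStrictFDerivAt (by simp)
  have e2 : ∀ᶠ z : E n × E n in 𝓝 (p0, p0),
      ‖f z.1 - f z.2 - fderiv ℝ f p0 (z.1 - z.2)‖ ≤ ε * ‖z.1 - z.2‖ :=
    hst.isLittleO.def hε
  rw [nhds_prod_eq, Filter.eventually_prod_self_iff'] at e2
  obtain ⟨t, ht, htt⟩ := e2
  obtain ⟨ρ, hρ, hb⟩ := Metric.mem_nhds_iff.1 ht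
  have hb' : ∀ p, ‖p - p0‖ < ρ → p ∈ t := by
    intro p hp
    exact hb (by rwa [mem_ball, dist_eq_norm])
  refine ⟨ρ, hρ, ?_, fun p q hp hq => htt q (hb' q hq) p (hb' p hp)⟩
  intro p hp hd
  have h3 : HasFDerivAt (fun z => f z - fderiv ℝ f p0 z) (fderiv ℝ f p - fderiv ℝ f p0) p :=
    hd.hasFDerivAt.sub (fderiv ℝ f p0).hasFDerivAt
  refine h3.le_of_lip' hε.le ?_
  have hev : ∀ᶠ q in 𝓝 p, ‖q - p0‖ < ρ := by
    have : Continuous fun q : E n => ‖q - p0‖ := by fun_prop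
    exact (isOpen_lt this continuous_const).mem_nhds hp
  filter_upwards [hev] with q hq
  have := htt q (hb' q hq) p (hb' p hp)
  rw [map_sub] at this
  refine le_of_eq_of_le ?_ this
  congr 1
  abel

/-- the weights -/
def Xo {ι : Type} [Fintype ι] (χ : ι → X → ℝ) : Option ι → X → ℝ
  | some i => χ i
  | none => fun x => 1 - ∑ i, χ i x

end Pool.Agent.N824.CR
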