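import Pool.Agent.N824.CR.Moll

/-!
# Local estimates for coarsely monotone maps
-/

set_option autoImplicit false
set_option maxSynthPendingDepth 3

open Set Filter Topology Metric Function MeasureTheory
open scoped Manifold ContDiff Convolution

noncomputable section

namespace Pool.Agent.N824.CR

open Pool.Agent.Y522 Pool.Agent.Y954.SH

variable {n : ℕ}

/-- the derivative of a patched map -/
theorem patchP {ι : Type} (s : Finset ι) (χ : ι → E n → ℝ) (g : ι → E n → E n) (p u : E n)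
    (ℓ : E n →L[ℝ] ℝ) (c : E n) (ζ D a : ℝ)
    (hχ : ∀ i ∈ s, DifferentiableAt ℝ (χ i) p) (hg : ∀ i ∈ s, DifferentiableAt ℝ (g i) p)
    (h0 : ∀ i ∈ s, 0 ≤ χ i p) (h1 : (fun z => ∑ i ∈ s, χ i z) =ᶠ[𝓝 p] fun _ => 1)
    (h2 : ∀ i ∈ s, a ≤ ℓ (fderiv ℝ (g i) p u)) (h3 : ∀ i ∈ s, |ℓ (g i p - c)| ≤ ζ)
    (h4 : ∀ i ∈ s, ‖fderiv ℝ (χ i) p‖ ≤ D) (hu : ‖u‖ = 1) (hD : 0 ≤ D) :
    a - s.card * (D * ζ) ≤ ℓ (fderiv ℝ (fun z => ∑ i ∈ s, χ i z • g i z) p u) := by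
  have e1 : ∑ i ∈ s, χ i p = 1 := h1.self_of_nhds
  have e2 : ∑ i ∈ s, fderiv ℝ (χ i) p = 0 := by
    have h5 : HasFDerivAt (fun z => ∑ i ∈ s, χ i z) (∑ i ∈ s, fderiv ℝ (χ i) p) p :=
      HasFDerivAt.fun_sum fun i hi => (hχ i hi).hasFDerivAt
    have h6 : HasFDerivAt (fun z => ∑ i ∈ s, χ i z) (0 : E n →L[ℝ] ℝ) p :=
      (hasFDerivAt_const (1 : ℝ) p).congr_of_eventuallyEq h1
    exact h5.unique h6
  have e2' : ∑ i ∈ s, fderiv ℝ (χ i) p u = 0 := by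
    rw [← sum_apply, e2]
    rfl
  have h7 : HasFDerivAt (fun z => ∑ i ∈ s, χ i z • g i z)
      (∑ i ∈ s, (χ i p • fderiv ℝ (g i) p + (fderiv ℝ (χ i) p).smulRight (g i p))) p :=
    HasFDerivAt.fun_sum fun i hi => (hχ i hi).hasFDerivAt.smul (hg i hi).hasFDerivAt
  rw [h7.fderiv, sum_apply, map_sum]
  have h8 : ∑ i ∈ s, ℓ ((χ i p • fderiv ℝ (g i) p + (fderiv ℝ (χ i) p).smulRight (g i p)) u) =
      (∑ i ∈ s, χ i p * ℓ (fderiv ℝ (g i) p u)) +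
      ∑ i ∈ s, fderiv ℝ (χ i) p u * ℓ (g i p - c) := by
    have e3 : ∑ i ∈ s, fderiv ℝ (χ i) p u * ℓ (g i p - c) =
        ∑ i ∈ s, fderiv ℝ (χ i) p u * ℓ (g i p) := by
      have : ∑ i ∈ s, fderiv ℝ (χ i) p u * ℓ (g i p - c) =
          ∑ i ∈ s, fderiv ℝ (χ i) p u * ℓ (g i p) - (∑ i ∈ s, fderiv ℝ (χ i) p u) * ℓ c := by
        rw [Finset.sum_mul, ← Finset.sum_sub_distrib]
        refine Finset.sum_congr rfl fun i _ => ?_
        rw [map_sub]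
        ring
      rw [this, e2', zero_mul, sub_zero]
    rw [e3, ← Finset.sum_add_distrib]
    refine Finset.sum_congr rfl fun i _ => ?_
    simp only [add_apply, smul_apply, ContinuousLinearMap.smulRight_apply, map_add, map_smul,
      smul_eq_mul]
  rw [h8]
  have h9 : a ≤ ∑ i ∈ s, χ i p * ℓ (fderiv ℝ (g i) p u) := by
    calc a = ∑ i ∈ s, χ i p * a := by rw [← Finset.sum_mul, e1, one_mul]
      _ ≤ _ := Finset.sum_le_sum fun i hi => mul_le_mul_of_nonneg_left (h2 i hi) (h0 i hi)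
  have h10 : |∑ i ∈ s, fderiv ℝ (χ i) p u * ℓ (g i p - c)| ≤ s.card * (D * ζ) := by
    refine (Finset.abs_sum_le_sum_abs _ _).trans ?_
    calc ∑ i ∈ s, |fderiv ℝ (χ i) p u * ℓ (g i p - c)| ≤ ∑ i ∈ s, D * ζ := by
          refine Finset.sum_le_sum fun i hi => ?_
          rw [abs_mul]
          refine mul_le_mul ?_ (h3 i hi) (abs_nonneg _) hD
          calc |fderiv ℝ (χ i) p u| ≤ ‖fderiv ℝ (χ i) p‖ * ‖u‖ := by
                rw [← Real.norm_eq_abs]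
                exact ContinuousLinearMap.le_opNorm _ _
            _ ≤ D := by rw [hu, mul_one]; exact h4 i hi
      _ = s.card * (D * ζ) := by rw [Finset.sum_const, nsmul_eq_mul]
  have h11 := (abs_le.1 h10).1
  linarith

/-- the estimates for one patch -/
theorem estP {h1 h2 φ ψ : E n → E n} {p u w : E n} {r κ ε H R2 : ℝ} {ℓ : E n →L[ℝ] ℝ}
    {T : E n →L[ℝ] E n} (hr : 0 < r) (hψφ : ψ (φ p) = p)
    (hh : ∀ s, ‖s - φ p‖ ≤ r → h1 (ψ s) = h2 s)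
    (hlip : ∀ s, ‖s - φ p‖ ≤ r → ‖ψ s - ψ (φ p)‖ ≤ κ ^ 2 * ‖s - φ p‖)
    (hT : ∀ s s', ‖s - φ p‖ ≤ r → ‖s' - φ p‖ ≤ r →
      ‖ψ s' - ψ s - T (s' - s)‖ ≤ r / H)
    (hw : w = fderiv ℝ φ p u) (hTw : T w = u) (hw0 : w ≠ 0)
    (hwn : ‖w‖ ≤ κ ^ 2)
    (hM : ∀ q q', ‖q - p‖ ≤ κ ^ 2 * r → ‖q' - p‖ ≤ κ ^ 2 * r → ∀ t : ℝ, 0 ≤ t →
      ‖q' - q - t • u‖ ≤ r / H → t - ε * r ≤ ℓ (h1 q') - ℓ (h1 q))
    (hΛ : ∀ q, ‖q - p‖ ≤ κ ^ 2 * r → |ℓ (h1 q) - ℓ (h1 p)| ≤ H * r)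
    (hcont : IntegrableOn h2 (closedBall 0 R2)) (hR : ‖φ p‖ + r ≤ R2)
    (hφ : DifferentiableAt ℝ φ p) (hε0 : 0 ≤ ε) (hε : C1 n * κ ^ 2 * ε ≤ 1) :
    1 / 2 ≤ ℓ (fderiv ℝ (fun z => Ml n h2 R2 r (φ z)) p u) ∧
      |ℓ (Ml n h2 R2 r (φ p) - h2 (φ p))| ≤ H * r := by
  have hball : ∀ s, ‖s - φ p‖ ≤ r → ‖ψ s - p‖ ≤ κ ^ 2 * r := by
    intro s hs
    have h3 := hlip s hs
    rw [hψφ] at h3
    exact h3.trans (by gcongr)
  constructor
  · have e1 : fderiv ℝ (fun z => Ml n h2 R2 r (φ z)) p u = fderiv ℝ (Ml n h2 R2 r) (φ p) w := by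
      have hd : DifferentiableAt ℝ (Ml n h2 R2 r) (φ p) :=
        (Ml_smooth hcont hr).contDiffAt.differentiableAt (by simp)
      have h3 : fderiv ℝ (fun z => Ml n h2 R2 r (φ z)) p =
          (fderiv ℝ (Ml n h2 R2 r) (φ p)).comp (fderiv ℝ φ p) := fderiv_comp p hd hφ
      rw [h3, hw]
      rfl
    rw [e1]
    have h4 := Ml_mono (b := ε * r) ℓ hcont hr hR hw0 (by positivity) (by
      intro s s' hs hs' τ hτ hss
      rw [← hh s hs, ← hh s' hs']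
      refine hM (ψ s) (ψ s') (hball s hs) (hball s' hs') τ hτ ?_
      have h5 := hT s s' hs hs'
      rw [hss, map_smul, hTw] at h5
      exact h5)
    refine le_trans ?_ h4
    have h12 : ε * r * ‖w‖ * C1 n / (2 * r) = (C1 n * ‖w‖ * ε) / 2 := by
      field_simp
    rw [h12]
    have h13 : C1 n * ‖w‖ * ε ≤ C1 n * κ ^ 2 * ε := by
      have := C1_nonneg n
      gcongr
    linarith
  · have h3 := Ml_close (ℓ) (e := H * r) hcont hr hR (by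
      intro q hq
      rw [map_sub, ← hh q hq, ← hh (φ p) (by simpa using hr.le), hψφ, Real.norm_eq_abs]
      exact hΛ (ψ q) (hball q hq))
    rwa [Real.norm_eq_abs] at h3

/-- the derivative at the good points -/
theorem goodP {h1 : E n → E n} {p u : E n} {r H b ν δ C : ℝ} (e : E n ≃L[ℝ] E n)
    {ℓ : E n →L[ℝ] ℝ} (hr : 0 < r) (hu : ‖u‖ = 1) (hH0 : 0 ≤ H) (hν : 0 ≤ ν) (hδ : 0 ≤ δ)
    (hC : 0 ≤ C)
    (hs : ∀ q, ‖q - p‖ ≤ r → ‖h1 q - h1 p - fderiv ℝ h1 p (q - p)‖ ≤ C * r * ‖q - p‖)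
    (hd : ‖fderiv ℝ h1 p - e‖ ≤ δ) (he : ∀ v, ‖v‖ ≤ ν * ‖e v‖)
    (hΛ : ∀ q, ‖q - p‖ ≤ r → |ℓ (h1 q) - ℓ (h1 p)| ≤ H * r)
    (hm : r - b ≤ ℓ (h1 (p + r • u)) - ℓ (h1 p)) (hb : b ≤ 1 / 4 * r)
    (hνδ : ν * δ ≤ 1 / 4) (hνC : ν * C * r ≤ 1 / 4) (hνH : 8 * (ν * C * (r * H)) ≤ 1) :
    1 / 2 ≤ ℓ (fderiv ℝ h1 p u) := by
  -- bound of the norm of ℓ
  have key : ∀ v : E n, |ℓ (e v)| ≤ (H + ‖ℓ‖ * (C * r + δ)) * ‖v‖ := by
    intro v
    by_cases hv : v = 0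
    · rw [hv]; simp
    have hvn : 0 < ‖v‖ := norm_pos_iff.2 hv
    have hc : 0 < r / ‖v‖ := by positivity
    have hq : ‖(p + (r / ‖v‖) • v) - p‖ = r := by
      rw [add_sub_cancel_left, norm_smul, Real.norm_of_nonneg hc.le]
      field_simp
    have a1 := hΛ _ hq.le
    have a2 := hs _ hq.le
    rw [hq, add_sub_cancel_left, map_smul] at a2
    have a3 : ℓ ((r / ‖v‖) • fderiv ℝ h1 p v) = (ℓ (h1 (p + (r / ‖v‖) • v)) - ℓ (h1 p)) -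
        ℓ (h1 (p + (r / ‖v‖) • v) - h1 p - (r / ‖v‖) • fderiv ℝ h1 p v) := by
      rw [map_sub, map_sub]
      ring
    have a4 : |ℓ ((r / ‖v‖) • fderiv ℝ h1 p v)| ≤ H * r + ‖ℓ‖ * (C * r * r) := by
      rw [a3]
      refine (abs_sub _ _).trans (add_le_add a1 ?_)
      rw [← Real.norm_eq_abs]
      refine (ContinuousLinearMap.le_opNorm _ _).trans ?_
      gcongr
    rw [map_smul, smul_eq_mul, abs_mul, abs_of_pos hc] at a4
    have a5 : r / ‖v‖ * |ℓ (fderiv ℝ h1 p v)| ≤ r / ‖v‖ * ((H + ‖ℓ‖ * (C * r)) * ‖v‖) := by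
      refine a4.trans (le_of_eq ?_)
      field_simp
    have a6 := le_of_mul_le_mul_left a5 hc
    have a7 : |ℓ ((fderiv ℝ h1 p - e) v)| ≤ ‖ℓ‖ * (δ * ‖v‖) := by
      rw [← Real.norm_eq_abs]
      refine (ContinuousLinearMap.le_opNorm _ _).trans ?_
      gcongr
      exact (ContinuousLinearMap.le_opNorm _ _).trans (by gcongr)
    have a8 : ℓ (e v) = ℓ (fderiv ℝ h1 p v) - ℓ ((fderiv ℝ h1 p - e) v) := by
      rw [← map_sub]
      congr 1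
      rw [sub_apply]
      simp
    rw [a8]
    refine (abs_sub _ _).trans ?_
    have a9 : (H + ‖ℓ‖ * (C * r + δ)) * ‖v‖ =
        (H + ‖ℓ‖ * (C * r)) * ‖v‖ + ‖ℓ‖ * (δ * ‖v‖) := by ring
    rw [a9]
    exact add_le_add a6 a7
  have hℓ : ‖ℓ‖ ≤ (H + ‖ℓ‖ * (C * r + δ)) * ν := by
    refine ContinuousLinearMap.opNorm_le_bound _ (by positivity) fun y => ?_
    have h3 := key (e.symm y)
    rw [e.apply_symm_apply] at h3
    have h4 := he (e.symm y)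
    rw [e.apply_symm_apply] at h4
    rw [Real.norm_eq_abs]
    calc |ℓ y| ≤ (H + ‖ℓ‖ * (C * r + δ)) * ‖e.symm y‖ := h3
      _ ≤ (H + ‖ℓ‖ * (C * r + δ)) * (ν * ‖y‖) := by gcongr
      _ = (H + ‖ℓ‖ * (C * r + δ)) * ν * ‖y‖ := by ring
  have h7 : ‖ℓ‖ ≤ 2 * (H * ν) := by
    have h8 : ‖ℓ‖ * (ν * C * r + ν * δ) ≤ ‖ℓ‖ * (1 / 2) := by
      gcongr
      linarith
    have h9 : (H + ‖ℓ‖ * (C * r + δ)) * ν = H * ν + ‖ℓ‖ * (ν * C * r + ν * δ) := by ring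
    rw [h9] at hℓ
    linarith
  have h8 : ‖ℓ‖ * (C * r) ≤ 1 / 4 := by
    calc ‖ℓ‖ * (C * r) ≤ 2 * (H * ν) * (C * r) := by gcongr
      _ = (8 * (ν * C * (r * H))) / 4 := by ring
      _ ≤ 1 / 4 := by linarith
  -- conclusion
  have hq : ‖(p + r • u) - p‖ = r := by
    rw [add_sub_cancel_left, norm_smul, Real.norm_of_nonneg hr.le, hu, mul_one]
  have a2 := hs _ hq.le
  rw [hq, add_sub_cancel_left, map_smul] at a2
  have a3 : r * ℓ (fderiv ℝ h1 p u) = (ℓ (h1 (p + r • u)) - ℓ (h1 p)) -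
      ℓ (h1 (p + r • u) - h1 p - r • fderiv ℝ h1 p u) := by
    rw [map_sub, map_sub, map_smul, smul_eq_mul]
    ring
  have a4 : |ℓ (h1 (p + r • u) - h1 p - r • fderiv ℝ h1 p u)| ≤ ‖ℓ‖ * (C * r * r) := by
    rw [← Real.norm_eq_abs]
    refine (ContinuousLinearMap.le_opNorm _ _).trans ?_
    gcongr
  have a5 : r * (1 / 2) ≤ r * ℓ (fderiv ℝ h1 p u) := by
    have a6 := (abs_le.1 a4).2
    have a7 : ‖ℓ‖ * (C * r * r) ≤ 1 / 4 * r := by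
      rw [← mul_assoc]
      gcongr
    linarith
  exact le_of_mul_le_mul_left a5 hr

/-- quadratic estimate -/
theorem quad_ball {f : E n → E n} {p0 : E n} (hf : ContDiffAt ℝ ∞ f p0) :
    ∃ ρ C : ℝ, 0 < ρ ∧ 0 ≤ C ∧ ∀ p r, (∀ q, ‖q - p‖ ≤ r → ‖q - p0‖ < ρ) →
      ∀ q q', ‖q - p‖ ≤ r → ‖q' - p‖ ≤ r →
        ‖f q' - f q - fderiv ℝ f p (q' - q)‖ ≤ C * r * ‖q' - q‖ := by
  have h1' : ContDiffAt ℝ ∞ (fderiv ℝ f) p0 := hf.fderiv_right (m := ∞) (by simp)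
  have h1 : ContDiffAt ℝ 1 (fderiv ℝ f) p0 := h1'.of_le (by simp)
  obtain ⟨K, t, ht, hK⟩ := h1.exists_lipschitzOnWith
  have h2 : ∀ᶠ y in 𝓝 p0, DifferentiableAt ℝ f y := by
    have h3 : ContDiffAt ℝ 1 f p0 := hf.of_le (by simp)
    filter_upwards [h3.eventually (by simp)] with y hy
    exact hy.differentiableAt (by simp)
  obtain ⟨ρ, hρ, hb⟩ := Metric.mem_nhds_iff.1 (Filter.inter_mem ht h2)
  have hb' : ∀ p, ‖p - p0‖ < ρ → p ∈ t ∧ DifferentiableAt ℝ f p := by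
    intro p hp
    exact hb (by rwa [mem_ball, dist_eq_norm])
  refine ⟨ρ, K, hρ, K.coe_nonneg, ?_⟩
  intro p r hpr q q' hq hq'
  have hr : 0 ≤ r := (norm_nonneg _).trans hq
  have hconv : Convex ℝ (closedBall p r) := convex_closedBall p r
  have hmem : ∀ z, z ∈ closedBall p r ↔ ‖z - p‖ ≤ r := fun z => by
    rw [mem_closedBall, dist_eq_norm]
  refine hconv.norm_image_sub_le_of_norm_hasFDerivWithin_le'
    (f' := fun z => fderiv ℝ f z) (fun z hz => ?_) (fun z hz => ?_) ((hmem q).2 hq)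
    ((hmem q').2 hq')
  · exact (hb' z (hpr z ((hmem z).1 hz))).2.hasFDerivAt.hasFDerivWithinAt
  · have h4 := hK.norm_sub_le (hb' z (hpr z ((hmem z).1 hz))).1
      (hb' p (hpr p (by simpa using hr))).1
    refine h4.trans ?_
    have := (hmem z).1 hz
    gcongr

/-- invertibility of the derivative -/
theorem finishP {f : E n → E n} {p : E n}
    (hf : ∀ᶠ y in 𝓝 p, ContDiffAt ℝ ∞ f y)
    (h : ∀ u : E n, ‖u‖ = 1 → ∃ ℓ : E n →L[ℝ] ℝ, 0 < ℓ (fderiv ℝ f p u)) : LD n f p := by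
  have hinj : Injective (fderiv ℝ f p).toLinearMap := by
    rw [← LinearMap.ker_eq_bot, LinearMap.ker_eq_bot']
    intro v hv
    have hv' : fderiv ℝ f p v = 0 := hv
    by_contra hv0
    have hvn : 0 < ‖v‖ := norm_pos_iff.2 hv0
    obtain ⟨ℓ, hℓ⟩ := h (‖v‖⁻¹ • v) (by
      rw [norm_smul, Real.norm_of_nonneg (inv_nonneg.2 hvn.le), inv_mul_cancel₀ hvn.ne'])
    rw [map_smul, hv', smul_zero, map_zero] at hℓ
    exact lt_irrefl _ hℓ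
  refine LD_of_contDiffAt hf
    (LinearEquiv.ofInjectiveEndo (fderiv ℝ f p).toLinearMap hinj).toContinuousLinearEquiv ?_
  have h1 : ((LinearEquiv.ofInjectiveEndo (fderiv ℝ f p).toLinearMap
      hinj).toContinuousLinearEquiv : E n →L[ℝ] E n) = fderiv ℝ f p := by
    ext v
    rfl
  rw [h1]
  exact (hf.self_of_nhds.differentiableAt (by simp)).hasFDerivAt

end Pool.Agent.N824.CR
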