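import Pool.Agent.N824.CR.Glob
import Pool.Agent.R765.DMonC

/-!
# Recognition of the ball by coarsely monotone maps
-/

set_option autoImplicit false
set_option maxSynthPendingDepth 3

open Set Filter Topology Metric Function MeasureTheory
open scoped Manifold ContDiff

noncomputable section

namespace Pool.Agent.N824.CR

open Pool.Agent.Y522 Pool.Agent.Y833.SH Pool.Agent.Y674.SH

/-- a local homeomorphism with one simple fibre is injective -/
theorem inj_of {M N : Type} [TopologicalSpace M] [TopologicalSpace N] [CompactSpace M]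
    [T2Space M] [T2Space N] [PreconnectedSpace N] (ψ : M → N) (hc : Continuous ψ)
    (ho : IsOpenMap ψ) (hl : ∀ x, ∃ u ∈ 𝓝 x, InjOn ψ u) (y0 : N)
    (h0 : ∀ a b, ψ a = y0 → ψ b = y0 → a = b) : Injective ψ := by
  obtain ⟨P, hP⟩ : ∃ P : Set (M × M), P = {z | ψ z.1 = ψ z.2 ∧ z.1 ≠ z.2} := ⟨_, rfl⟩
  obtain ⟨T, hT⟩ : ∃ T : Set N, T = (fun z : M × M => ψ z.1) '' P := ⟨_, rfl⟩
  have hPm : ∀ z, z ∈ P ↔ (ψ z.1 = ψ z.2 ∧ z.1 ≠ z.2) := fun z => by rw [hP]; rfl
  have hTo : IsOpen T := by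
    rw [isOpen_iff_mem_nhds]
    intro y hy
    rw [hT] at hy
    obtain ⟨⟨a, b⟩, hab, rfl⟩ := hy
    obtain ⟨h1, h2⟩ := (hPm _).1 hab
    simp only at h1 h2 ⊢
    obtain ⟨Wa, Wb, hWa, hWb, ha, hb, hd⟩ := t2_separation h2
    have e1 : ψ '' Wa ∈ 𝓝 (ψ a) := ho.image_mem_nhds (hWa.mem_nhds ha)
    have e2 : ψ '' Wb ∈ 𝓝 (ψ a) := by
      rw [h1]
      exact ho.image_mem_nhds (hWb.mem_nhds hb)
    filter_upwards [e1, e2] with y y1 y2
    obtain ⟨a', ha', rfl⟩ := y1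
    obtain ⟨b', hb', hy⟩ := y2
    rw [hT]
    refine ⟨(a', b'), (hPm _).2 ⟨hy.symm, ?_⟩, rfl⟩
    rintro (rfl : a' = b')
    exact disjoint_left.1 hd ha' hb'
  choose u hu hinj using hl
  have hPc : IsClosed P := by
    have e1 : P = {z : M × M | ψ z.1 = ψ z.2} ∩ (⋃ x, interior (u x) ×ˢ interior (u x))ᶜ := by
      ext ⟨a, b⟩
      rw [hPm]
      simp only [mem_inter_iff, mem_setOf_eq, mem_compl_iff, mem_iUnion, not_exists, mem_prod]
      constructor
      · rintro ⟨h1, h2⟩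
        refine ⟨h1, fun x hx => h2 ?_⟩
        exact hinj x (interior_subset hx.1) (interior_subset hx.2) h1
      · rintro ⟨h1, h2⟩
        refine ⟨h1, ?_⟩
        rintro rfl
        exact h2 a ⟨mem_interior_iff_mem_nhds.2 (hu a), mem_interior_iff_mem_nhds.2 (hu a)⟩
    rw [e1]
    refine (isClosed_eq (hc.comp continuous_fst) (hc.comp continuous_snd)).inter ?_
    rw [isClosed_compl_iff]
    exact isOpen_iUnion fun x => isOpen_interior.prod isOpen_interior
  have hTc : IsClosed T := by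
    rw [hT]
    exact (hPc.isCompact.image (hc.comp continuous_fst)).isClosed
  rcases isClopen_iff.1 ⟨hTc, hTo⟩ with h | h
  · intro a b hab
    by_contra hne
    have : ψ a ∈ T := by
      rw [hT]
      exact ⟨(a, b), (hPm _).2 ⟨hab, hne⟩, rfl⟩
    rw [h] at this
    exact this
  · exfalso
    have : y0 ∈ T := by rw [h]; exact mem_univ _
    rw [hT] at this
    obtain ⟨⟨a, b⟩, hab, hy⟩ := this
    obtain ⟨h1, h2⟩ := (hPm _).1 hab
    exact h2 (h0 a b hy (h1.symm.trans hy))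

/-- the condition in the interior of a manifold with boundary -/
def CMb (m : ℕ) {M : Type} [TopologicalSpace M] [ChartedSpace (EuclideanHalfSpace (m + 1)) M]
    (d : M → M → ℝ) (S : Set ℝ) (f : ℝ → M → E (m + 1)) (x : M) : Prop :=
  ∃ (A : E (m + 1) → M) (κ ε ρ : ℝ) (H : ℝ → ℝ), A 0 = x ∧
    IsLocalDiffeomorphAt (𝓡 (m + 1)) (𝓡∂ (m + 1)) ∞ A 0 ∧ 1 ≤ κ ∧ 0 ≤ ε ∧
    CC (m + 1) * (κ ^ 2 * ε) ≤ 1 ∧ 0 < ρ ∧ (∀ r, 1 ≤ H r) ∧
    Tendsto (fun r => r * H r) (𝓝[>] 0) (𝓝 0) ∧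
    (∀ p q, ‖p‖ < ρ → ‖q‖ < ρ →
      d (A p) (A q) ≤ κ * ‖p - q‖ ∧ ‖p - q‖ ≤ κ * d (A p) (A q)) ∧
    ∀ p, ‖p‖ < ρ → ∀ r ∈ S, 0 < r → r < ρ →
      CM1 (m + 1) (fun z => f r (A z)) p κ ε (H r) r

theorem core (m : ℕ) (M N X : Type) [TopologicalSpace M] [TopologicalSpace N]
    [TopologicalSpace X] [CompactSpace M] [T2Space M] [SecondCountableTopology M]
    [MeasurableSpace M] [BorelSpace M]
    [ChartedSpace (EuclideanHalfSpace (m + 1)) M] [ChartedSpace (EuclideanHalfSpace (m + 1)) N]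
    [ChartedSpace (E (m + 1)) X]
    [IsManifold (𝓡∂ (m + 1)) ∞ M] [IsManifold (𝓡∂ (m + 1)) ∞ N] [IsManifold (𝓡 (m + 1)) ∞ X]
    (ι : X → M) (hι : Injective ι) (hιr : range ι = (𝓡∂ (m + 1)).interior M)
    (hιd : ∀ x, IsLocalDiffeomorphAt (𝓡 (m + 1)) (𝓡∂ (m + 1)) ∞ ι x)
    (j : N ≃ₜ closedBall (0 : E (m + 1)) 1)
    (hj : ∀ y ∈ (𝓡∂ (m + 1)).interior N,
      IsLocalDiffeomorphAt (𝓡∂ (m + 1)) (𝓡 (m + 1)) ∞ (fun y => (j y : E (m + 1))) y)
    (U : Set M) (hU : IsOpen U) (hUb : ∀ x ∉ (𝓡∂ (m + 1)).interior M, x ∈ U) (g : M → N)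
    (hgb : ∀ x ∉ (𝓡∂ (m + 1)).interior M,
      IsLocalDiffeomorphAt (𝓡∂ (m + 1)) (𝓡∂ (m + 1)) ∞ g x)
    (hgi : ∀ x ∈ (𝓡∂ (m + 1)).interior M, x ∈ U →
      IsLocalDiffeomorphAt (𝓡∂ (m + 1)) (𝓡 (m + 1)) ∞ (fun x => (j (g x) : E (m + 1))) x)
    (hbij : BijOn g ((𝓡∂ (m + 1)).interior M)ᶜ ((𝓡∂ (m + 1)).interior N)ᶜ)
    (d : M → M → ℝ) (S : Set ℝ) (hS : (0 : ℝ) ∈ closure (S ∩ Ioi 0))
    (f : ℝ → M → E (m + 1)) (hfm : ∀ r ∈ S, Measurable (f r))
    (hfB : ∀ r ∈ S, ∃ b : ℝ, ∀ x, ‖f r x‖ ≤ b)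
    (hfe : ∀ r ∈ S, ∀ x ∈ U, f r x = j (g x))
    (hc : ∀ x, x ∉ U → CMb m d S f x) :
    ∃ Φ : Diffeomorph (𝓡∂ (m + 1)) (𝓡∂ (m + 1)) M N ∞,
      ∀ x ∉ (𝓡∂ (m + 1)).interior M, Φ =ᶠ[𝓝 x] g := by
  classical
  have hNi : ∀ x, x ∈ (𝓡∂ (m + 1)).interior N ↔ ‖(j x : E (m + 1))‖ < 1 :=
    int_iff (𝓡∂ (m + 1)) inferInstance j
  have hιc : Continuous ι := continuous_iff_continuousAt.2 fun x => (hιd x).contMDiffAt.continuousAt
  have : T2Space X := T2Space.of_injective_continuous hι hιc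
  have : T2Space N := j.symm.t2Space
  have hιo : IsOpenMap ι := IsLocalDiffeomorph.isOpenMap (I := 𝓡 (m + 1)) (J := 𝓡∂ (m + 1))
    (n := ∞) hιd
  have hemb : IsOpenEmbedding ι := IsOpenEmbedding.of_continuous_injective_isOpenMap hιc hι hιo
  have hmem : ∀ x, ι x ∈ (𝓡∂ (m + 1)).interior M := fun x => hιr ▸ mem_range_self x
  have : SecondCountableTopology X := hemb.isEmbedding.secondCountableTopology
  have : LocallyCompactSpace X := ChartedSpace.locallyCompactSpace (E (m + 1)) X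
  obtain ⟨V, hV⟩ : ∃ V : Set X, V = ι ⁻¹' U := ⟨_, rfl⟩
  obtain ⟨Fb, hFb⟩ : ∃ Fb : X → E (m + 1), Fb = fun x => (j (g (ι x)) : E (m + 1)) := ⟨_, rfl⟩
  have hVm : ∀ x, x ∈ V ↔ ι x ∈ U := fun x => by rw [hV]; rfl
  have hVo : IsOpen V := by rw [hV]; exact hU.preimage hιc
  have hLDb : ∀ x ∈ V, LD (m + 1) Fb x := by
    intro x hx
    have h9 : IsLocalDiffeomorphAt (𝓡 (m + 1)) (𝓡 (m + 1)) ∞
        ((fun x => (j (g x) : E (m + 1))) ∘ ι) x :=
      IsLocalDiffeomorphAt.comp (𝓡 (m + 1)) (E (m + 1)) (hιd x) (hgi _ (hmem x) ((hVm x).1 hx))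
    rw [hFb]
    exact h9
  have hVK : IsCompact Vᶜ := by
    rw [hemb.isInducing.isCompact_iff]
    have : ι '' Vᶜ = Uᶜ := by
      ext y
      constructor
      · rintro ⟨x, hx, rfl⟩
        exact fun h => hx ((hVm x).2 h)
      · intro hy
        have h1 : y ∈ range ι := by
          rw [hιr]
          by_contra h
          exact hy (hUb y h)
        obtain ⟨x, rfl⟩ := h1
        exact ⟨x, fun h => hy ((hVm x).1 h), rfl⟩
    rw [this]
    exact hU.isClosed_compl.isCompact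
  have hD : ∀ x, x ∉ V → CMt (m + 1) (fun a b => d (ι a) (ι b)) S (fun r x => f r (ι x)) x := by
    intro x hxV
    obtain ⟨A, κ, ε, ρ, H, hA0, hAd, hκ, hε0, hε1, hρ, hH1, hHl, hdd, hA⟩ :=
      hc (ι x) (fun h => hxV ((hVm x).2 h))
    have ha := (hιd x).localInverse_isLocalDiffeomorphAt
    have hax : (hιd x).localInverse (ι x) = x :=
      (hιd x).localInverse_left_inv (hιd x).localInverse_mem_target
    have hA' : LD (m + 1) ((hιd x).localInverse ∘ A) 0 := by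
      rw [← hA0] at ha
      exact IsLocalDiffeomorphAt.comp (𝓡 (m + 1)) X hAd ha
    have hev : ∀ᶠ z in 𝓝 (0 : E (m + 1)), ι ((hιd x).localInverse (A z)) = A z := by
      have h1 : A 0 ∈ (hιd x).localInverse.source := by
        rw [hA0]
        exact (hιd x).localInverse_mem_source
      filter_upwards [hAd.contMDiffAt.continuousAt
        ((hιd x).localInverse.open_source.mem_nhds h1)] with z hz
      exact (hιd x).localInverse_right_inv hz
    obtain ⟨δ, hδ, hδe⟩ := Metric.eventually_nhds_iff_ball.1 hev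
    have hδe' : ∀ z : E (m + 1), ‖z‖ < δ → ι (((hιd x).localInverse ∘ A) z) = A z :=
      fun z hz => hδe z (by rwa [mem_ball_zero_iff])
    have hk : 0 < 1 + κ ^ 2 := by positivity
    have hρ' : 0 < min ρ (δ / (1 + κ ^ 2)) := lt_min hρ (by positivity)
    have hρδ : min ρ (δ / (1 + κ ^ 2)) ≤ δ := by
      refine (min_le_right _ _).trans (div_le_self hδ.le ?_)
      nlinarith [sq_nonneg κ]
    refine ⟨(hιd x).localInverse ∘ A, κ, ε, min ρ (δ / (1 + κ ^ 2)), H, ?_, hA', hκ, hε0, hε1,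
      hρ', hH1, hHl, ?_, ?_⟩
    · rw [comp_apply, hA0, hax]
    · intro p q hp hq
      show d (ι (((hιd x).localInverse ∘ A) p)) (ι (((hιd x).localInverse ∘ A) q)) ≤ _ ∧
        _ ≤ κ * d (ι (((hιd x).localInverse ∘ A) p)) (ι (((hιd x).localInverse ∘ A) q))
      rw [hδe' p (hp.trans_le hρδ), hδe' q (hq.trans_le hρδ)]
      exact hdd p q (hp.trans_le (min_le_left _ _)) (hq.trans_le (min_le_left _ _))
    · intro p hp r hrS hr0 hr u hu
      obtain ⟨ℓ, h1, h2⟩ := hA p (hp.trans_le (min_le_left _ _)) r hrS hr0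
        (hr.trans_le (min_le_left _ _)) u hu
      have key : ∀ q : E (m + 1), ‖q - p‖ ≤ κ ^ 2 * r →
          ι (((hιd x).localInverse ∘ A) q) = A q := by
        intro q hq
        refine hδe' q ?_
        have e1 : ‖q‖ ≤ ‖q - p‖ + ‖p‖ := by
          calc ‖q‖ = ‖(q - p) + p‖ := by congr 1; abel
            _ ≤ _ := norm_add_le _ _
        have e2 : κ ^ 2 * r ≤ κ ^ 2 * min ρ (δ / (1 + κ ^ 2)) := by gcongr
        have e3 : (1 + κ ^ 2) * min ρ (δ / (1 + κ ^ 2)) ≤ δ := by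
          calc (1 + κ ^ 2) * min ρ (δ / (1 + κ ^ 2)) ≤ (1 + κ ^ 2) * (δ / (1 + κ ^ 2)) := by
                gcongr
                exact min_le_right _ _
            _ = δ := by field_simp
        linarith
      have hpp : ‖p - p‖ ≤ κ ^ 2 * r := by rw [sub_self, norm_zero]; positivity
      refine ⟨ℓ, fun q hq => ?_, fun q q' hq hq' t ht hqq => ?_⟩
      · beta_reduce
        rw [key q hq, key p hpp]
        exact h1 q hq
      · beta_reduce
        rw [key q hq, key q' hq']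
        exact h2 q q' hq hq' t ht hqq
  let mX : MeasurableSpace X := borel X
  have bX : BorelSpace X := ⟨rfl⟩
  obtain ⟨F', C, hC, hF'C, hF'd⟩ := glob (fun r x => f r (ι x)) Fb V
    (fun a b => d (ι a) (ι b)) S hS (fun r hr => (hfm r hr).comp hιc.measurable)
    (fun r hr => (hfB r hr).imp fun b hb x => hb _) hVo hLDb
    (fun r hr x hx => by rw [hFb]; exact hfe r hr _ ((hVm x).1 hx)) hD hVK
  have hFbe : ∀ x, Fb x = j (g (ι x)) := fun x => by rw [hFb]
  -- the values are in the open ball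
  have hFbn : ∀ x ∈ V, ‖Fb x‖ < 1 := by
    intro x hx
    have h1 := (hLDb x hx).image_mem_nhds univ_mem
    have h2 : closedBall (0 : E (m + 1)) 1 ∈ 𝓝 (Fb x) := by
      refine mem_of_superset h1 ?_
      rintro _ ⟨y, -, rfl⟩
      rw [hFbe]
      exact (j (g (ι y))).2
    have h3 := mem_interior_iff_mem_nhds.2 h2
    rw [interior_closedBall _ one_ne_zero, mem_ball_zero_iff] at h3
    exact h3
  have hF'c : Continuous F' := continuous_iff_continuousAt.2 fun x => (hF'd x).continuousAt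
  have hF'n : ∀ x, ‖F' x‖ < 1 := by
    by_contra hcon
    push Not at hcon
    obtain ⟨x, hx⟩ := hcon
    have hoff : ∀ y, y ∉ C → ‖F' y‖ < 1 := fun y hy => by
      rw [(hF'C y hy).2]
      exact hFbn y (hF'C y hy).1
    have hxC : x ∈ C := by
      by_contra h
      exact absurd (hoff x h) (not_lt.2 hx)
    obtain ⟨c, hcC, hcm⟩ := hC.exists_isMaxOn ⟨x, hxC⟩ hF'c.norm.continuousOn
    have h1 : ‖F' x‖ ≤ ‖F' c‖ := hcm hxC
    have h2 : closedBall (0 : E (m + 1)) ‖F' c‖ ∈ 𝓝 (F' c) := by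
      refine mem_of_superset ((hF'd c).image_mem_nhds univ_mem) ?_
      rintro _ ⟨y, -, rfl⟩
      rw [mem_closedBall_zero_iff]
      by_cases hy : y ∈ C
      · exact hcm hy
      · exact (hoff y hy).le.trans (hx.trans h1)
    have h3 := mem_interior_iff_mem_nhds.2 h2
    have h4 : ‖F' c‖ ≠ 0 := by
      have := hx.trans h1
      linarith
    rw [interior_closedBall _ h4, mem_ball_zero_iff] at h3
    exact lt_irrefl _ h3
  -- the map of `M`
  obtain ⟨G, hG1, hG2⟩ : ∃ G : M → closedBall (0 : E (m + 1)) 1,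
      (∀ x, (G (ι x) : E (m + 1)) = F' x) ∧ ∀ y, y ∉ range ι → G y = j (g y) := by
    refine ⟨fun y => if hy : ∃ x, ι x = y then ⟨F' hy.choose, by
      rw [mem_closedBall_zero_iff]; exact (hF'n _).le⟩ else j (g y), ?_, ?_⟩
    · intro x
      have hx : ∃ x', ι x' = ι x := ⟨x, rfl⟩
      simp only [dif_pos hx]
      rw [hι hx.choose_spec]
    · intro y hy
      have : ¬ ∃ x, ι x = y := hy
      simp only [dif_neg this]
  have hnear : ∀ y ∉ (𝓡∂ (m + 1)).interior M, (fun y => j.symm (G y)) =ᶠ[𝓝 y] g := by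
    intro y hyi
    have hy : y ∉ range ι := by rwa [hιr]
    have h1 : IsClosed (ι '' C) := (hC.image hιc).isClosed
    have h2 : y ∉ ι '' C := fun h2 => hy (image_subset_range _ _ h2)
    filter_upwards [h1.isOpen_compl.mem_nhds h2] with y' hy'
    rw [Homeomorph.symm_apply_eq]
    by_cases g1 : y' ∈ range ι
    · obtain ⟨x', rfl⟩ := g1
      have g2 : x' ∉ C := fun g2 => hy' ⟨x', g2, rfl⟩
      refine Subtype.ext ?_
      rw [hG1, (hF'C x' g2).2, hFbe]
    · rw [hG2 y' g1]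
  have hloc : IsLocalDiffeomorph (𝓡∂ (m + 1)) (𝓡∂ (m + 1)) ∞ (fun y => j.symm (G y)) := by
    intro y
    by_cases hy : y ∈ range ι
    · obtain ⟨x, rfl⟩ := hy
      have ha := (hιd x).localInverse_isLocalDiffeomorphAt
      have hax : (hιd x).localInverse (ι x) = x :=
        (hιd x).localInverse_left_inv (hιd x).localInverse_mem_target
      have h1 : LD (m + 1) F' ((hιd x).localInverse (ι x)) := by
        rw [hax]
        exact hF'd x
      have h2 := IsLocalDiffeomorphAt.comp (𝓡 (m + 1)) (E (m + 1)) ha h1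
      have hjp : IsLocalDiffeomorphAt (𝓡∂ (m + 1)) (𝓡 (m + 1)) ∞ (fun y => (j y : E (m + 1)))
          (j.symm (G (ι x))) := by
        refine hj _ ((hNi _).2 ?_)
        rw [j.apply_symm_apply, hG1]
        exact hF'n x
      have h3 := hjp.localInverse_isLocalDiffeomorphAt
      have h4 : (j (j.symm (G (ι x))) : E (m + 1)) = (F' ∘ (hιd x).localInverse) (ι x) := by
        rw [j.apply_symm_apply, hG1, comp_apply, hax]
      beta_reduce at h3
      rw [h4] at h3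
      have h5 := IsLocalDiffeomorphAt.comp (𝓡∂ (m + 1)) N h2 h3
      refine ld_congr h5 ?_
      have h6 : (F' ∘ (hιd x).localInverse) (ι x) ∈ hjp.localInverse.source := by
        rw [← h4]
        exact hjp.localInverse_mem_source
      filter_upwards [(hιd x).localInverse.open_source.mem_nhds (hιd x).localInverse_mem_source,
        h2.contMDiffAt.continuousAt (hjp.localInverse.open_source.mem_nhds h6)] with y' g1 g2
      have g3 : ι ((hιd x).localInverse y') = y' := (hιd x).localInverse_right_inv g1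
      have g4 := hjp.localInverse_right_inv g2
      show j.symm (G y') = hjp.localInverse ((F' ∘ (hιd x).localInverse) y')
      rw [Homeomorph.symm_apply_eq]
      refine Subtype.ext ?_
      beta_reduce at g4
      rw [g4, comp_apply, ← hG1, g3]
    · have hyi : y ∉ (𝓡∂ (m + 1)).interior M := by rwa [← hιr]
      exact ld_congr (hgb y hyi) (hnear y hyi)
  -- bijectivity
  obtain ⟨ψ, hψ⟩ : ∃ ψ : M → N, ψ = fun y => j.symm (G y) := ⟨_, rfl⟩
  rw [← hψ] at hloc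
  have hψe : ∀ y, ψ y = j.symm (G y) := fun y => by rw [hψ]
  have hψc : Continuous ψ := hloc.contMDiff.continuous
  have hψo : IsOpenMap ψ := hloc.isOpenMap
  have hconn : PreconnectedSpace N := by
    have h1 : IsPreconnected (closedBall (0 : E (m + 1)) 1) :=
      (convex_closedBall _ _).isPreconnected
    have h2 : PreconnectedSpace (closedBall (0 : E (m + 1)) 1) :=
      isPreconnected_iff_preconnectedSpace.1 h1
    exact j.symm.surjective.denseRange.preconnectedSpace j.symm.continuous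
  have hpre : ∀ a, ψ a ∉ (𝓡∂ (m + 1)).interior N → a ∉ (𝓡∂ (m + 1)).interior M ∧ ψ a = g a := by
    intro a ha
    have h1 : a ∉ range ι := by
      rintro ⟨x, rfl⟩
      apply ha
      rw [hNi, hψe, j.apply_symm_apply, hG1]
      exact hF'n x
    refine ⟨by rwa [← hιr], ?_⟩
    rw [hψe, hG2 a h1, j.symm_apply_apply]
  obtain ⟨y0, hy0⟩ : ∃ y0 : N, y0 ∉ (𝓡∂ (m + 1)).interior N := by
    refine ⟨j.symm ⟨EuclideanSpace.single 0 1, by simp⟩, ?_⟩
    rw [hNi, j.apply_symm_apply]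
    simp
  have hinj : Injective ψ := by
    refine inj_of ψ hψc hψo (fun x => ?_) y0 ?_
    · obtain ⟨Φ, hx, heq⟩ := hloc x
      refine ⟨Φ.source, Φ.open_source.mem_nhds hx, ?_⟩
      intro a ha b hb hab
      rw [heq ha, heq hb] at hab
      exact Φ.injOn ha hb hab
    · intro a b ha hb
      obtain ⟨a1, a2⟩ := hpre a (by rw [ha]; exact hy0)
      obtain ⟨b1, b2⟩ := hpre b (by rw [hb]; exact hy0)
      refine hbij.injOn a1 b1 ?_
      rw [← a2, ← b2, ha, hb]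
  have hsurj : Surjective ψ := by
    have h1 : IsClopen (range ψ) := ⟨(isCompact_range hψc).isClosed, hψo.isOpen_range⟩
    obtain ⟨a, ha, hay⟩ := hbij.surjOn hy0
    rcases isClopen_iff.1 h1 with h | h
    · exfalso
      have : ψ a ∈ range ψ := mem_range_self a
      rw [h] at this
      exact this
    · exact range_eq_univ.1 h
  refine ⟨hloc.diffeomorphOfBijective ⟨hinj, hsurj⟩, fun x hx => ?_⟩
  have h1 := hnear x hx
  rw [← hψ] at h1
  exact h1

/-- recognition of the ball -/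
theorem recognition (m : ℕ) (M N : Type) [TopologicalSpace M] [TopologicalSpace N]
    [CompactSpace M] [T2Space M] [SecondCountableTopology M]
    [MeasurableSpace M] [BorelSpace M]
    [ChartedSpace (EuclideanHalfSpace (m + 1)) M] [ChartedSpace (EuclideanHalfSpace (m + 1)) N]
    [IsManifold (𝓡∂ (m + 1)) ∞ M] [IsManifold (𝓡∂ (m + 1)) ∞ N]
    (j : N ≃ₜ closedBall (0 : E (m + 1)) 1)
    (hj : ∀ y ∈ (𝓡∂ (m + 1)).interior N,
      IsLocalDiffeomorphAt (𝓡∂ (m + 1)) (𝓡 (m + 1)) ∞ (fun y => (j y : E (m + 1))) y)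
    (U : Set M) (hU : IsOpen U) (hUb : ∀ x ∉ (𝓡∂ (m + 1)).interior M, x ∈ U) (g : M → N)
    (hgb : ∀ x ∉ (𝓡∂ (m + 1)).interior M,
      IsLocalDiffeomorphAt (𝓡∂ (m + 1)) (𝓡∂ (m + 1)) ∞ g x)
    (hgi : ∀ x ∈ (𝓡∂ (m + 1)).interior M, x ∈ U →
      IsLocalDiffeomorphAt (𝓡∂ (m + 1)) (𝓡 (m + 1)) ∞ (fun x => (j (g x) : E (m + 1))) x)
    (hbij : BijOn g ((𝓡∂ (m + 1)).interior M)ᶜ ((𝓡∂ (m + 1)).interior N)ᶜ)
    (d : M → M → ℝ) (S : Set ℝ) (hS : (0 : ℝ) ∈ closure (S ∩ Ioi 0))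
    (f : ℝ → M → E (m + 1)) (hfm : ∀ r ∈ S, Measurable (f r))
    (hfB : ∀ r ∈ S, ∃ b : ℝ, ∀ x, ‖f r x‖ ≤ b)
    (hfe : ∀ r ∈ S, ∀ x ∈ U, f r x = j (g x))
    (hc : ∀ x, x ∉ U → CMb m d S f x) :
    ∃ Φ : Diffeomorph (𝓡∂ (m + 1)) (𝓡∂ (m + 1)) M N ∞,
      ∀ x ∉ (𝓡∂ (m + 1)).interior M, Φ =ᶠ[𝓝 x] g := by
  let := csI (M := M) (𝓡∂ (m + 1))
  have := mfI (M := M) (𝓡∂ (m + 1))
  exact core m M N ((𝓡∂ (m + 1)).interior M) Subtype.val Subtype.val_injective
    Subtype.range_val (fun x => ldiff_val (𝓡∂ (m + 1)) x) j hj U hU hUb g hgb hgi hbij d S hS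
    f hfm hfB hfe hc

end Pool.Agent.N824.CR
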