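import Pool.Agent.Y954.SH.MollS

/-!
# Mollification with a radially decreasing kernel
-/

set_option autoImplicit false
set_option maxSynthPendingDepth 3

open Set Filter Topology Metric Function MeasureTheory
open scoped Manifold ContDiff Convolution InnerProductSpace

noncomputable section

namespace Pool.Agent.N824.CR

open Pool.Agent.Y522 Pool.Agent.Y954.SH

variable {n : ℕ}

/-- the radial bump -/
def kz (n : ℕ) (s : E n) : ℝ := Real.smoothTransition (1 - ‖s‖ ^ 2)

/-- the radial kernel -/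
def K (n : ℕ) (s : E n) : ℝ := (∫ t, kz n t)⁻¹ * kz n s

lemma kz_smooth : ContDiff ℝ ∞ (kz n) :=
  (Real.smoothTransition.contDiff (n := ⊤)).comp (contDiff_const.sub (contDiff_norm_sq ℝ))

lemma kz_nonneg (s : E n) : 0 ≤ kz n s := Real.smoothTransition.nonneg _

lemma kz_zero {s : E n} (hs : 1 ≤ ‖s‖) : kz n s = 0 := by
  refine Real.smoothTransition.zero_of_nonpos ?_
  nlinarith

lemma kz_cpt : HasCompactSupport (kz n) := by
  refine HasCompactSupport.of_support_subset_isCompact (isCompact_closedBall (0 : E n) 1) ?_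
  intro s hs
  rw [mem_closedBall_zero_iff]
  by_contra h
  push Not at h
  exact hs (kz_zero h.le)

lemma kz_integrable : Integrable (kz n) :=
  kz_smooth.continuous.integrable_of_hasCompactSupport kz_cpt

lemma kz_int_pos : 0 < ∫ t, kz n t := by
  refine (kz_smooth (n := n)).continuous.integral_pos_of_hasCompactSupport_nonneg_nonzero
    kz_cpt (fun s => kz_nonneg s) (x := 0) ?_
  have : 0 < kz n 0 := Real.smoothTransition.pos_of_pos (by simp)
  exact this.ne'

lemma K_smooth : ContDiff ℝ ∞ (K n) := contDiff_const.mul kz_smooth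

lemma K_nonneg (s : E n) : 0 ≤ K n s := mul_nonneg (inv_nonneg.2 kz_int_pos.le) (kz_nonneg s)

lemma K_zero {s : E n} (hs : 1 ≤ ‖s‖) : K n s = 0 := by rw [K, kz_zero hs, mul_zero]

lemma K_cpt : HasCompactSupport (K n) := kz_cpt.mul_left

lemma K_integrable : Integrable (K n) := kz_integrable.const_mul _

lemma K_int : ∫ s, K n s = 1 := by
  unfold K
  rw [integral_const_mul, inv_mul_cancel₀ kz_int_pos.ne']

lemma K_d_cont : Continuous (fderiv ℝ (K n)) := K_smooth.continuous_fderiv (by simp)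

lemma K_d_zero {s : E n} (hs : 1 < ‖s‖) : fderiv ℝ (K n) s = 0 := by
  have h : K n =ᶠ[𝓝 s] fun _ => (0 : ℝ) := by
    filter_upwards [(isOpen_lt continuous_const continuous_norm).mem_nhds hs] with y hy
    exact K_zero (le_of_lt hy)
  rw [h.fderiv_eq]
  simp

lemma K_d_integrable : Integrable (fderiv ℝ (K n)) :=
  K_d_cont.integrable_of_hasCompactSupport (K_cpt.fderiv ℝ)

/-- the kernel is radially decreasing -/
lemma K_d_apply (s : E n) : ∃ c : ℝ, 0 ≤ c ∧ ∀ w : E n, fderiv ℝ (K n) s w = -(c * ⟪s, w⟫_ℝ) := by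
  have h1 : HasDerivAt (fun x : ℝ => Real.smoothTransition (1 - x))
      (deriv (fun x : ℝ => Real.smoothTransition (1 - x)) (‖s‖ ^ 2)) (‖s‖ ^ 2) := by
    refine DifferentiableAt.hasDerivAt ?_
    have h2 : ContDiff ℝ ∞ (fun x : ℝ => Real.smoothTransition (1 - x)) :=
      (Real.smoothTransition.contDiff (n := ⊤)).comp (contDiff_const.sub contDiff_id)
    exact h2.contDiffAt.differentiableAt (by simp)
  have h3 : deriv (fun x : ℝ => Real.smoothTransition (1 - x)) (‖s‖ ^ 2) ≤ 0 := by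
    refine Antitone.deriv_nonpos ?_
    intro a b hab
    exact Real.smoothTransition.monotone (by linarith)
  have h4 : HasFDerivAt (fun s : E n => ‖s‖ ^ 2) (2 • innerSL ℝ s) s :=
    (hasStrictFDerivAt_norm_sq s).hasFDerivAt
  have h5 : HasFDerivAt (K n) ((∫ t, kz n t)⁻¹ •
      (deriv (fun x : ℝ => Real.smoothTransition (1 - x)) (‖s‖ ^ 2) • (2 • innerSL ℝ s))) s := by
    have h6 := (h1.comp_hasFDerivAt s h4).const_mul (∫ t, kz n t)⁻¹
    exact h6
  refine ⟨-((∫ t, kz n t)⁻¹ * deriv (fun x : ℝ => Real.smoothTransition (1 - x)) (‖s‖ ^ 2) * 2),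
    ?_, ?_⟩
  · have h7 : 0 ≤ (∫ t, kz n t)⁻¹ := inv_nonneg.2 kz_int_pos.le
    nlinarith
  · intro w
    rw [h5.fderiv]
    simp only [smul_apply, smul_eq_mul, nsmul_eq_mul, innerSL_apply_apply]
    push_cast
    ring

/-- reflection -/
def rf (w s : E n) : E n := s - (2 * (⟪w, s⟫_ℝ / ‖w‖ ^ 2)) • w

lemma rf_eq (w s : E n) : rf w s = (ℝ ∙ w)ᗮ.reflection s := by
  rw [Submodule.reflection_orthogonal_apply, Submodule.reflection_singleton_apply]
  unfold rf
  simp only [RCLike.ofReal_real_eq_id, id_eq]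
  rw [two_smul, two_mul, add_smul]
  abel

lemma norm_rf (w s : E n) : ‖rf w s‖ = ‖s‖ := by
  rw [rf_eq]
  exact LinearIsometryEquiv.norm_map _ _

lemma K_rf (w s : E n) : K n (rf w s) = K n s := by
  unfold K kz
  rw [norm_rf]

lemma K_d_rf (w s : E n) : fderiv ℝ (K n) (rf w s) w = -fderiv ℝ (K n) s w := by
  by_cases hw : w = 0
  · rw [hw]; simp
  have h1 : (fun s => K n ((ℝ ∙ w)ᗮ.reflection s)) = K n := by
    funext s
    rw [← rf_eq, K_rf]
  have h2 : HasFDerivAt (fun s => K n ((ℝ ∙ w)ᗮ.reflection s))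
      ((fderiv ℝ (K n) ((ℝ ∙ w)ᗮ.reflection s)).comp
        ((ℝ ∙ w)ᗮ.reflection.toContinuousLinearEquiv : E n →L[ℝ] E n)) s := by
    have h3 : HasFDerivAt (K n) (fderiv ℝ (K n) ((ℝ ∙ w)ᗮ.reflection s))
        ((ℝ ∙ w)ᗮ.reflection s) :=
      (K_smooth.contDiffAt.differentiableAt (by simp)).hasFDerivAt
    exact h3.comp s ((ℝ ∙ w)ᗮ.reflection.toContinuousLinearEquiv : E n →L[ℝ] E n).hasFDerivAt
  rw [h1] at h2
  have h4 : fderiv ℝ (K n) s w = fderiv ℝ (K n) ((ℝ ∙ w)ᗮ.reflection s)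
      ((ℝ ∙ w)ᗮ.reflection w) := by
    rw [h2.fderiv]
    rfl
  rw [Submodule.reflection_orthogonalComplement_singleton_eq_neg, map_neg] at h4
  rw [rf_eq, h4, neg_neg]

lemma integral_rf (w : E n) (f : E n → ℝ) : ∫ s, f (rf w s) = ∫ s, f s := by
  have h := ((ℝ ∙ w)ᗮ.reflection : E n ≃ₗᵢ[ℝ] E n).measurePreserving
  have h2 := h.integral_comp
    ((ℝ ∙ w)ᗮ.reflection : E n ≃ₗᵢ[ℝ] E n).toHomeomorph.measurableEmbedding f
  rw [← h2]
  refine integral_congr_ae (Eventually.of_forall fun s => ?_)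
  show f (rf w s) = f _
  rw [rf_eq]

end Pool.Agent.N824.CR
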