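import Pool.Agent.N824.CR.Chart

/-!
# The local claim for families of coarsely monotone maps
-/

set_option autoImplicit false
set_option maxSynthPendingDepth 3

open Set Filter Topology Metric Function MeasureTheory
open scoped Manifold ContDiff Convolution

noncomputable section

namespace Pool.Agent.N824.CR

open Pool.Agent.Y522 Pool.Agent.Y954.SH

variable {n : ℕ} {X : Type} [TopologicalSpace X] [ChartedSpace (E n) X]

/-- coarse monotonicity of `h` near `p` at the scale `r` -/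
def CM1 (n : ℕ) (h : E n → E n) (p : E n) (κ ε H r : ℝ) : Prop :=
  ∀ u : E n, ‖u‖ = 1 → ∃ ℓ : E n →L[ℝ] ℝ,
    (∀ q, ‖q - p‖ ≤ κ ^ 2 * r → |ℓ (h q) - ℓ (h p)| ≤ H * r) ∧
    ∀ q q', ‖q - p‖ ≤ κ ^ 2 * r → ‖q' - p‖ ≤ κ ^ 2 * r → ∀ t : ℝ, 0 ≤ t →
      ‖q' - q - t • u‖ ≤ r / H → t - ε * r ≤ ℓ (h q') - ℓ (h q)

/-- the patches -/
def go {ι : Type} (F : X → E n) (A : ι → E n → X) (B : ι → X → E n) (R : ι → ℝ) (r : ℝ) :
    Option ι → X → E n
  | some i => fun x => Ml n (fun z => F (A i z)) (R i) r (B i x)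
  | none => F

/-- the patched map -/
def Gr {ι : Type} [Fintype ι] (F : X → E n) (A : ι → E n → X) (B : ι → X → E n) (R : ι → ℝ)
    (χ : ι → X → ℝ) (r : ℝ) (x : X) : E n :=
  ∑ o, Xo χ o x • go F A B R r o x

/-- data of a finite family of charts -/
structure Fam (n : ℕ) {X : Type} [TopologicalSpace X] [ChartedSpace (E n) X] (ι : Type)
    [Fintype ι] (d : X → X → ℝ) (F : ℝ → X → E n) (Fb : X → E n) (V : Set X) (S : Set ℝ)
    (A : ι → E n → X) (B : ι → X → E n)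
    (R κ ε : ι → ℝ) (H : ι → ℝ → ℝ) (χ : ι → X → ℝ) : Prop where
  oV : IsOpen V
  LDb : ∀ x ∈ V, LD n Fb x
  Feq : ∀ r ∈ S, ∀ x ∈ V, F r x = Fb x
  cht : ∀ i, IsCht n d (A i) (B i) (R i) (κ i)
  iF : ∀ i, ∀ r ∈ S, IntegrableOn (fun z => F r (A i z)) (closedBall 0 (R i))
  cm : ∀ i p, ‖p‖ < R i → ∀ r ∈ S, 0 < r → r < R i →
    CM1 n (fun z => F r (A i z)) p (κ i) (ε i) (H i r) r
  ε0 : ∀ i, 0 ≤ ε i
  ε1 : ∀ i, C1 n * κ i ^ 2 * ε i ≤ 1
  ε4 : ∀ i, ε i ≤ 1 / 4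
  H1 : ∀ i r, 1 ≤ H i r
  Hlim : ∀ i, Tendsto (fun r => r * H i r) (𝓝[>] 0) (𝓝 0)
  sm : ∀ i, ContMDiff (𝓡 n) 𝓘(ℝ, ℝ) ∞ (χ i)
  nn : ∀ i x, 0 ≤ χ i x
  le : ∀ x, ∑ i, χ i x ≤ 1
  sup : ∀ i, tsupport (χ i) ⊆ A i '' ball 0 (R i)

section

variable {ι : Type} [Fintype ι] {d : X → X → ℝ} {F : ℝ → X → E n} {Fb : X → E n} {V : Set X}
  {S : Set ℝ} {A : ι → E n → X}
  {B : ι → X → E n} {R κ ε : ι → ℝ} {H : ι → ℝ → ℝ} {χ : ι → X → ℝ}

theorem Fam.Xo_smooth (hf : Fam n ι d F Fb V S A B R κ ε H χ) (o : Option ι) :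
    ContMDiff (𝓡 n) 𝓘(ℝ, ℝ) ∞ (Xo χ o) := by
  cases o with
  | some i => exact hf.sm i
  | none =>
    have h1 : ContMDiff (𝓡 n) 𝓘(ℝ, ℝ) ∞ (fun x => ∑ i, χ i x) :=
      contMDiff_finsetSum fun i _ => hf.sm i
    exact contMDiff_const.sub h1

theorem Fam.Xo_contDiffAt (hf : Fam n ι d F Fb V S A B R κ ε H χ) (o : Option ι) {i : ι} {z : E n}
    (hz : ‖z‖ ≤ R i) : ContDiffAt ℝ ∞ (fun y => Xo χ o (A i y)) z := by
  have h1 := ((hf.cht i).ld z hz).contMDiffAt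
  have h2 : ContMDiffAt (𝓡 n) 𝓘(ℝ, ℝ) ∞ (Xo χ o ∘ A i) z :=
    ((hf.Xo_smooth o).contMDiffAt).comp z h1
  exact contMDiffAt_iff_contDiffAt.1 h2

theorem Fam.Xo_nn (hf : Fam n ι d F Fb V S A B R κ ε H χ) (o : Option ι) (x : X) :
    0 ≤ Xo χ o x := by
  cases o with
  | some i => exact hf.nn i x
  | none => exact sub_nonneg.2 (hf.le x)

omit [ChartedSpace (E n) X] in
variable (F A B R) in
/-- the finite set of relevant indices -/
theorem exists_t {x0 : X} (I : Finset ι) (V : Set X)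
    (hI : ∀ i, i ∈ I ↔ x0 ∈ tsupport (χ i))
    (hcase : (∀ᶠ x in 𝓝 x0, ∑ i, χ i x = 1) ∨ x0 ∈ V) :
    ∃ t : Finset (Option ι), (∀ o ∈ t, (o = none ∧ x0 ∈ V) ∨ ∃ i ∈ I, o = some i) ∧
      ∀ᶠ x in 𝓝 x0, (∑ o ∈ t, Xo χ o x = 1) ∧
        ∀ r, ∑ o ∈ t, Xo χ o x • go (F r) A B R r o x = Gr (F r) A B R χ r x := by
  classical
  have hz : ∀ᶠ x in 𝓝 x0, ∀ i, i ∉ I → χ i x = 0 := by
    refine Filter.eventually_all.2 fun i => ?_
    by_cases hi : i ∈ I
    · exact Eventually.of_forall fun x h => absurd hi h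
    · have h1 : x0 ∉ tsupport (χ i) := fun h => hi ((hI i).2 h)
      have h2 : χ i =ᶠ[𝓝 x0] 0 := notMem_tsupport_iff_eventuallyEq.1 h1
      filter_upwards [h2] with x hx _
      exact hx
  rcases hcase with hc | hc
  · refine ⟨I.map Embedding.some, ?_, ?_⟩
    · intro o ho
      obtain ⟨i, hi, rfl⟩ := Finset.mem_map.1 ho
      exact Or.inr ⟨i, hi, rfl⟩
    · filter_upwards [hz, hc] with x hx hx1
      have e1 : ∑ i ∈ I, χ i x = 1 := by
        rw [← hx1]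
        exact Finset.sum_subset (Finset.subset_univ I) fun i _ hi => hx i hi
      refine ⟨by simpa [Xo] using e1, fun r => ?_⟩
      unfold Gr
      rw [Fintype.sum_option, Finset.sum_map]
      have e2 : Xo χ none x = 0 := by
        show 1 - ∑ i, χ i x = 0
        rw [hx1, sub_self]
      rw [e2, zero_smul, zero_add]
      refine Finset.sum_subset (Finset.subset_univ I) fun i _ hi => ?_
      show χ i x • _ = 0
      rw [hx i hi, zero_smul]
  · refine ⟨Finset.insertNone I, ?_, ?_⟩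
    · intro o ho
      cases o with
      | none => exact Or.inl ⟨rfl, hc⟩
      | some i => exact Or.inr ⟨i, Finset.some_mem_insertNone.1 ho, rfl⟩
    · filter_upwards [hz] with x hx
      have e1 : ∑ i ∈ I, χ i x = ∑ i, χ i x :=
        Finset.sum_subset (Finset.subset_univ I) fun i _ hi => hx i hi
      refine ⟨?_, fun r => ?_⟩
      · rw [Finset.sum_insertNone]
        show 1 - ∑ i, χ i x + ∑ i ∈ I, χ i x = 1
        rw [e1]
        ring
      · unfold Gr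
        rw [Fintype.sum_option, Finset.sum_insertNone]
        congr 1
        refine Finset.sum_subset (Finset.subset_univ I) fun i _ hi => ?_
        show χ i x • _ = 0
        rw [hx i hi, zero_smul]

/-- the local claim -/
theorem Fam.loc (hf : Fam n ι d F Fb V S A B R κ ε H χ) {x0 : X}
    (hx0 : ∃ i, x0 ∈ tsupport (χ i))
    (hcase : (∀ᶠ x in 𝓝 x0, ∑ i, χ i x = 1) ∨ x0 ∈ V) :
    ∀ᶠ z : ℝ × X in 𝓝[S ∩ Ioi 0] (0 : ℝ) ×ˢ 𝓝 x0, LD n (Gr (F z.1) A B R χ z.1) z.2 := by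
  classical
  obtain ⟨I, hI⟩ : ∃ I : Finset ι, ∀ i, i ∈ I ↔ x0 ∈ tsupport (χ i) :=
    ⟨Finset.univ.filter fun i => x0 ∈ tsupport (χ i), fun i => by simp⟩
  have hIne : I.Nonempty := by
    obtain ⟨i, hi⟩ := hx0
    exact ⟨i, (hI i).2 hi⟩
  obtain ⟨i1, hi1, hmax⟩ := Finset.exists_max_image I (fun i => κ i) hIne
  obtain ⟨t, ht, hsum⟩ := exists_t F A B R (χ := χ) I V hI hcase
  have hW : ∀ i ∈ I, x0 ∈ A i '' ball 0 (R i) := fun i hi => hf.sup i ((hI i).1 hi)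
  have hW1 := hW i1 hi1
  -- transitions from the reference chart
  have htr : ∀ i : ι, ∃ ρ : ℝ, 0 < ρ ∧ (i ∈ I → ∀ p, ‖p - B i1 x0‖ < ρ → ‖p‖ < R i1 ∧
      A i1 p ∈ A i '' ball 0 (R i) ∧
        LD n (fun z => B i (A i1 z)) p ∧
        ‖fderiv ℝ (fun z => B i (A i1 z)) p‖ ≤ κ i1 * κ i) := by
    intro i
    by_cases hi : i ∈ I
    · obtain ⟨ρ, h1, h2, h3⟩ := (hf.cht i1).trans (hf.cht i) hW1 (hW i hi) one_pos
      refine ⟨ρ, h1, fun _ p hp => ?_⟩
      obtain ⟨b1, b2, b3, b4, b5⟩ := h2 p hp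
      exact ⟨b1, b2, b3, b5⟩
    · exact ⟨1, one_pos, fun h => absurd h hi⟩
  choose ρ hρ0 hρ using htr
  -- transitions to the reference chart
  have htr' : ∀ i : ι, ∃ ρ C : ℝ, 0 < ρ ∧ 0 ≤ C ∧ (i ∈ I → (∀ p, ‖p - B i x0‖ < ρ → ‖p‖ < R i ∧
      A i p ∈ A i1 '' ball 0 (R i1) ∧
        LD n (fun z => B i1 (A i z)) p) ∧
      (∀ p q, ‖p - B i x0‖ < ρ → ‖q - B i x0‖ < ρ →
        ‖B i1 (A i q) - B i1 (A i p)‖ ≤ κ i * κ i1 * ‖q - p‖) ∧
      ∀ p r, (∀ q, ‖q - p‖ ≤ r → ‖q - B i x0‖ < ρ) →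
      ∀ q q', ‖q - p‖ ≤ r → ‖q' - p‖ ≤ r →
        ‖B i1 (A i q') - B i1 (A i q) - fderiv ℝ (fun z => B i1 (A i z)) p (q' - q)‖ ≤
          C * r * ‖q' - q‖) := by
    intro i
    by_cases hi : i ∈ I
    · obtain ⟨ρ, h1, h2, h3⟩ := (hf.cht i).trans (hf.cht i1) (hW i hi) hW1 one_pos
      have h0 : ‖B i x0 - B i x0‖ < ρ := by rwa [sub_self, norm_zero]
      obtain ⟨ρq, C, h4, h5, h6⟩ := quad_ball (h2 _ h0).2.2.1.contDiffAt
      refine ⟨min ρ ρq, C, lt_min h1 h4, h5, fun _ => ⟨fun p hp => ?_, fun p q hp hq => ?_,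
        fun p r hpr q q' hq hq' => ?_⟩⟩
      · obtain ⟨b1, b2, b3, -, -⟩ := h2 p (hp.trans_le (min_le_left _ _))
        exact ⟨b1, b2, b3⟩
      · exact (h3 p q (hp.trans_le (min_le_left _ _)) (hq.trans_le (min_le_left _ _))).2
      · exact h6 p r (fun q hq => (hpr q hq).trans_le (min_le_right _ _)) q q' hq hq'
    · exact ⟨1, 0, one_pos, le_rfl, fun h => absurd h hi⟩
  choose ρ' Cq hρ'0 hCq hρ' using htr'
  -- the good case
  have hgood : x0 ∈ V → LD n (fun w => Fb (A i1 w)) (B i1 x0) := by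
    intro h
    refine LD.comp_fun (g := Fb) (f := A i1) ?_ ((hf.cht i1).ld _ ((hf.cht i1).mem hW1).le)
    rw [(hf.cht i1).right hW1]
    exact hf.LDb x0 h
  have hnone : ∃ (ρn ν δ C : ℝ) (e : E n ≃L[ℝ] E n), 0 < ρn ∧ 0 ≤ ν ∧ 0 ≤ δ ∧ 0 ≤ C ∧
      ν * δ ≤ 1 / 4 ∧ (x0 ∈ V →
      (∀ v, ‖v‖ ≤ ν * ‖e v‖) ∧
      (∀ p, ‖p - B i1 x0‖ < ρn → DifferentiableAt ℝ (fun w => Fb (A i1 w)) p →
        ‖fderiv ℝ (fun w => Fb (A i1 w)) p - e‖ ≤ δ) ∧
      (∀ p, ‖p - B i1 x0‖ < ρn → A i1 p ∈ V) ∧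
      ∀ p r, (∀ q, ‖q - p‖ ≤ r → ‖q - B i1 x0‖ < ρn) →
      ∀ q q', ‖q - p‖ ≤ r → ‖q' - p‖ ≤ r →
        ‖Fb (A i1 q') - Fb (A i1 q) - fderiv ℝ (fun w => Fb (A i1 w)) p (q' - q)‖ ≤
          C * r * ‖q' - q‖) := by
    by_cases h : x0 ∈ V
    · have h1 := hgood h
      obtain ⟨e, he⟩ := h1.exists_equiv
      obtain ⟨ν, hν⟩ : ∃ ν : ℝ, ν = ‖(e.symm : E n →L[ℝ] E n)‖ := ⟨_, rfl⟩
      have hν0 : 0 ≤ ν := by rw [hν]; positivity
      have hδ : 0 < 1 / (4 * (ν + 1)) := by positivity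
      obtain ⟨ρn, a1, a2, a3⟩ := strict_ball h1.contDiffAt hδ
      obtain ⟨ρq, C, a4, a5, a6⟩ := quad_ball h1.contDiffAt
      have hAV : A i1 ⁻¹' V ∈ 𝓝 (B i1 x0) := by
        refine ((hf.cht i1).ld _ ((hf.cht i1).mem hW1).le).continuousAt.preimage_mem_nhds ?_
        rw [(hf.cht i1).right hW1]
        exact hf.oV.mem_nhds h
      obtain ⟨ρv, a7, a8⟩ := Metric.mem_nhds_iff.1 hAV
      rw [he.fderiv] at a2 a3
      refine ⟨min (min ρn ρq) ρv, ν, 1 / (4 * (ν + 1)), C, e, lt_min (lt_min a1 a4) a7, hν0,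
        hδ.le, a5, ?_, fun _ => ⟨fun v => ?_, fun p hp hd =>
          a2 p (hp.trans_le ((min_le_left _ _).trans (min_le_left _ _))) hd,
        fun p hp => a8 (by
          rw [mem_ball, dist_eq_norm]
          exact hp.trans_le (min_le_right _ _)),
        fun p r hpr q q' hq hq' =>
          a6 p r (fun q hq => (hpr q hq).trans_le ((min_le_left _ _).trans (min_le_right _ _)))
            q q' hq hq'⟩⟩
      · rw [mul_one_div, div_le_iff₀ (by positivity)]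
        linarith
      · have h3 := (e.symm : E n →L[ℝ] E n).le_opNorm (e v)
        have h4 : (e.symm : E n →L[ℝ] E n) (e v) = v := e.symm_apply_apply v
        rw [h4, ← hν] at h3
        exact h3
    · exact ⟨1, 0, 0, 0, ContinuousLinearEquiv.refl ℝ (E n), one_pos, le_rfl, le_rfl, le_rfl,
        by norm_num, fun h' => absurd h' h⟩
  obtain ⟨ρn, ν, δ, Cn, e, hρn0, hν0, hδ0, hCn0, hνδ, hρn⟩ := hnone
  -- the bound of the derivatives of the weights
  obtain ⟨D, hD⟩ : ∃ D : ℝ, D = ∑ o : Option ι,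
      (‖fderiv ℝ (fun y => Xo χ o (A i1 y)) (B i1 x0)‖ + 1) := ⟨_, rfl⟩
  have hD0 : 0 ≤ D := by rw [hD]; positivity
  have hDe : ∀ᶠ p in 𝓝 (B i1 x0), ∀ o : Option ι,
      ‖fderiv ℝ (fun y => Xo χ o (A i1 y)) p‖ ≤ D := by
    refine Filter.eventually_all.2 fun o => ?_
    have h1 := hf.Xo_contDiffAt o (i := i1) ((hf.cht i1).mem hW1).le
    have h2 : ContinuousAt (fderiv ℝ (fun y => Xo χ o (A i1 y))) (B i1 x0) :=
      (h1.fderiv_right (m := 0) (by simp)).continuousAt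
    have h3 : ‖fderiv ℝ (fun y => Xo χ o (A i1 y)) (B i1 x0)‖ <
        ‖fderiv ℝ (fun y => Xo χ o (A i1 y)) (B i1 x0)‖ + 1 := by linarith
    filter_upwards [h2.norm.eventually_lt_const h3] with p hp
    refine hp.le.trans ?_
    rw [hD]
    exact Finset.single_le_sum
      (f := fun o => ‖fderiv ℝ (fun y => Xo χ o (A i1 y)) (B i1 x0)‖ + 1)
      (fun o _ => by positivity) (Finset.mem_univ o)
  -- limits
  obtain ⟨l, hl⟩ : ∃ l : Filter (ℝ × X), l = 𝓝[S ∩ Ioi 0] (0 : ℝ) ×ˢ 𝓝 x0 := ⟨_, rfl⟩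
  rw [← hl]
  have l1 : Tendsto (fun z : ℝ × X => z.1) l (𝓝 0) := by
    rw [hl]
    exact tendsto_fst.mono_right nhdsWithin_le_nhds
  have l1' : Tendsto (fun z : ℝ × X => z.1) l (𝓝[>] 0) := by
    rw [hl]
    exact tendsto_fst.mono_right (nhdsWithin_mono _ inter_subset_right)
  have lH : Tendsto (fun z : ℝ × X => z.1 * H i1 z.1) l (𝓝 0) := (hf.Hlim i1).comp l1'
  have l2 : Tendsto (fun z : ℝ × X => z.2) l (𝓝 x0) := by
    rw [hl]
    exact tendsto_snd
  have l0 : ∀ᶠ z : ℝ × X in l, z.1 ∈ S ∩ Ioi 0 := by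
    rw [hl]
    have : ∀ᶠ r in 𝓝[S ∩ Ioi 0] (0 : ℝ), r ∈ S ∩ Ioi 0 := self_mem_nhdsWithin
    exact this.prod_inl _
  have lB : ∀ i ∈ I, Tendsto (fun z : ℝ × X => B i z.2) l (𝓝 (B i x0)) := fun i hi =>
    ((hf.cht i).ldB (hW i hi)).continuousAt.tendsto.comp l2
  have q1 : ∀ᶠ z in l, ∀ i ∈ I, ‖B i1 z.2 - B i1 x0‖ < ρ i := by
    refine (Finset.eventually_all I).2 fun i _ => ?_
    have h1 : Tendsto (fun z : ℝ × X => ‖B i1 z.2 - B i1 x0‖) l
        (𝓝 (‖B i1 x0 - B i1 x0‖)) := ((lB i1 hi1).sub_const _).norm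
    rw [sub_self, norm_zero] at h1
    exact h1.eventually_lt_const (hρ0 i)
  have q1' : ∀ᶠ z in l, ∀ i ∈ I, ‖B i z.2 - B i x0‖ + z.1 < ρ' i := by
    refine (Finset.eventually_all I).2 fun i hi => ?_
    have h1 : Tendsto (fun z : ℝ × X => ‖B i z.2 - B i x0‖ + z.1) l
        (𝓝 (‖B i x0 - B i x0‖ + 0)) :=
      (((lB i hi).sub_const _).norm).add l1
    rw [sub_self, norm_zero, add_zero] at h1
    exact h1.eventually_lt_const (hρ'0 i)
  have q2 : ∀ᶠ z in l, ∀ i ∈ I, ‖B i z.2‖ + z.1 < R i := by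
    refine (Finset.eventually_all I).2 fun i hi => ?_
    have h1 : Tendsto (fun z : ℝ × X => ‖B i z.2‖ + z.1) l (𝓝 (‖B i x0‖ + 0)) :=
      ((lB i hi).norm).add l1
    rw [add_zero] at h1
    exact h1.eventually_lt_const ((hf.cht i).mem (hW i hi))
  have q3 : ∀ᶠ z in l, ∀ i ∈ I, z.2 ∈ A i '' ball 0 (R i) := by
    refine (Finset.eventually_all I).2 fun i hi => ?_
    exact l2.eventually ((hf.cht i).isOpen.mem_nhds (hW i hi))
  have q4 : ∀ᶠ z in l, (t.card * D) * (z.1 * H i1 z.1) < 1 / 4 := by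
    have h1 : Tendsto (fun z : ℝ × X => (t.card * D) * (z.1 * H i1 z.1)) l
        (𝓝 ((t.card * D) * 0)) := lH.const_mul _
    rw [mul_zero] at h1
    exact h1.eventually_lt_const (by norm_num)
  have q4' : ∀ᶠ z in l, ∀ i ∈ I, (2 * Cq i) * (z.1 * H i1 z.1) < 1 := by
    refine (Finset.eventually_all I).2 fun i hi => ?_
    have h1 : Tendsto (fun z : ℝ × X => (2 * Cq i) * (z.1 * H i1 z.1)) l
        (𝓝 ((2 * Cq i) * 0)) := lH.const_mul _
    rw [mul_zero] at h1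
    exact h1.eventually_lt_const (by norm_num)
  have q4a : ∀ᶠ z in l, (ν * Cn) * z.1 < 1 / 4 := by
    have h1 : Tendsto (fun z : ℝ × X => (ν * Cn) * z.1) l
        (𝓝 ((ν * Cn) * 0)) := l1.const_mul _
    rw [mul_zero] at h1
    exact h1.eventually_lt_const (by norm_num)
  have q4b : ∀ᶠ z in l, (8 * (ν * Cn)) * (z.1 * H i1 z.1) < 1 := by
    have h1 : Tendsto (fun z : ℝ × X => (8 * (ν * Cn)) * (z.1 * H i1 z.1)) l
        (𝓝 ((8 * (ν * Cn)) * 0)) := lH.const_mul _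
    rw [mul_zero] at h1
    exact h1.eventually_lt_const (by norm_num)
  have q5 := l2.eventually hsum.eventually_nhds
  have q6 := (lB i1 hi1).eventually hDe
  have q7 : ∀ᶠ z in l, ‖B i1 z.2 - B i1 x0‖ + z.1 < ρn := by
    have h1 : Tendsto (fun z : ℝ × X => ‖B i1 z.2 - B i1 x0‖ + z.1) l
        (𝓝 (‖B i1 x0 - B i1 x0‖ + 0)) :=
      (((lB i1 hi1).sub_const _).norm).add l1
    rw [sub_self, norm_zero, add_zero] at h1
    exact h1.eventually_lt_const hρn0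
  have q8 : ∀ᶠ z in l, x0 ∈ V → ∀ᶠ y in 𝓝 z.2, y ∈ V := by
    by_cases h : x0 ∈ V
    · filter_upwards [l2.eventually (hf.oV.eventually_mem h).eventually_nhds] with z hz _
      exact hz
    · exact Eventually.of_forall fun z h' => absurd h' h
  have q9 : ∀ᶠ z in l, z.1 < R i1 := l1.eventually_lt_const (hf.cht i1).pos
  filter_upwards [l0, q1, q1', q2, q3, q4, q4', q4a, q4b, q5, q6, q7, q8, q9] with z z0' z1 z1'
    z2 z3 z4 z4' z4a z4b z5 z6 z7 z8 z9
  obtain ⟨r, x⟩ := z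
  simp only at z0' z1 z1' z2 z3 z4 z4' z4a z4b z5 z6 z7 z8 z9 ⊢
  obtain ⟨zS, z0⟩ := z0'
  replace z0 : 0 < r := z0
  have hx1 := z3 i1 hi1
  obtain ⟨p, hp⟩ : ∃ p, p = B i1 x := ⟨_, rfl⟩
  have hAp : A i1 p = x := by rw [hp]; exact (hf.cht i1).right hx1
  have hpR : ‖p‖ < R i1 := by rw [hp]; exact (hf.cht i1).mem hx1
  rw [← hp] at z1 z6 z7
  have hAc : ContinuousAt (A i1) p := ((hf.cht i1).ld p hpR.le).continuousAt
  have hκ1 := (hf.cht i1).one
  have hcm := hf.cm i1 p hpR r zS z0 z9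
  obtain ⟨Hr, hHr⟩ : ∃ Hr, Hr = H i1 r := ⟨_, rfl⟩
  have hH1 : 1 ≤ Hr := by rw [hHr]; exact hf.H1 i1 r
  rw [← hHr] at hcm z4 z4' z4b
  have hκr : r ≤ κ i1 ^ 2 * r := by
    have : 1 ≤ κ i1 ^ 2 := one_le_pow₀ hκ1
    nlinarith
  -- the estimates for the patches
  have hest : ∀ u : E n, ‖u‖ = 1 → ∀ ℓ : E n →L[ℝ] ℝ,
      (∀ q, ‖q - p‖ ≤ κ i1 ^ 2 * r → |ℓ (F r (A i1 q)) - ℓ (F r (A i1 p))| ≤ Hr * r) →
      (∀ q q', ‖q - p‖ ≤ κ i1 ^ 2 * r → ‖q' - p‖ ≤ κ i1 ^ 2 * r → ∀ t : ℝ, 0 ≤ t →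
        ‖q' - q - t • u‖ ≤ r / Hr → t - ε i1 * r ≤ ℓ (F r (A i1 q')) - ℓ (F r (A i1 q))) →
      ∀ i ∈ I,
      1 / 2 ≤ ℓ (fderiv ℝ (fun y => Ml n (fun w => F r (A i w)) (R i) r (B i (A i1 y))) p u) ∧
      |ℓ (Ml n (fun w => F r (A i w)) (R i) r (B i (A i1 p)) - F r x)| ≤ Hr * r := by
    intro u hu ℓ hℓ1 hℓ2 i hi
    have hr1 := hρ i hi
    obtain ⟨hs1, hs2, hs3⟩ := hρ' i hi
    have hκi : κ i ≤ κ i1 := hmax i hi
    have hκi1 := (hf.cht i).one
    have hκκ : κ i * κ i1 ≤ κ i1 ^ 2 := by nlinarith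
    have hbx : B i (A i1 p) = B i x := by rw [hAp]
    obtain ⟨b1, b2, b3, b4⟩ := hr1 p (z1 i hi)
    have hsρ : ∀ s, ‖s - B i (A i1 p)‖ ≤ r → ‖s - B i x0‖ < ρ' i := by
      intro s hs
      rw [hbx] at hs
      calc ‖s - B i x0‖ = ‖(s - B i x) + (B i x - B i x0)‖ := by congr 1; abel
        _ ≤ ‖s - B i x‖ + ‖B i x - B i x0‖ := norm_add_le _ _
        _ < ρ' i := by linarith [z1' i hi]
    have hs0 : ‖B i (A i1 p) - B i x0‖ < ρ' i := hsρ _ (by simpa using z0.le)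
    obtain ⟨c1, c2, c3⟩ := hs1 _ hs0
    -- the composition of the transitions
    have hid : (fderiv ℝ (fun z => B i1 (A i z)) (B i (A i1 p)))
        (fderiv ℝ (fun z => B i (A i1 z)) p u) = u := by
      have d1 : HasFDerivAt (fun z => B i (A i1 z)) (fderiv ℝ (fun z => B i (A i1 z)) p) p :=
        (b3.contDiffAt.differentiableAt (by simp)).hasFDerivAt
      have d2 : HasFDerivAt (fun z => B i1 (A i z))
          (fderiv ℝ (fun z => B i1 (A i z)) (B i (A i1 p))) (B i (A i1 p)) :=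
        (c3.contDiffAt.differentiableAt (by simp)).hasFDerivAt
      have d3 := HasFDerivAt.comp p d2 d1
      have d4 : HasFDerivAt ((fun z => B i1 (A i z)) ∘ fun z => B i (A i1 z))
          (ContinuousLinearMap.id ℝ (E n)) p := by
        refine (hasFDerivAt_id p).congr_of_eventuallyEq ?_
        have w1 : ∀ᶠ y : E n in 𝓝 p, ‖y‖ < R i1 :=
          (isOpen_lt continuous_norm continuous_const).mem_nhds hpR
        have w2 : ∀ᶠ y in 𝓝 p, ‖y - B i1 x0‖ < ρ i := by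
          have : Continuous fun q : E n => ‖q - B i1 x0‖ := by fun_prop
          exact (isOpen_lt this continuous_const).mem_nhds (z1 i hi)
        filter_upwards [w1, w2] with y y1 y2
        show B i1 (A i (B i (A i1 y))) = y
        rw [(hf.cht i).right (hr1 y y2).2.1, (hf.cht i1).left y y1.le]
      have d5 := d3.unique d4
      have d6 := congrArg (fun L : E n →L[ℝ] E n => L u) d5
      simpa using d6
    obtain ⟨w, hw⟩ : ∃ w, w = fderiv ℝ (fun z => B i (A i1 z)) p u := ⟨_, rfl⟩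
    rw [← hw] at hid
    have hw0 : w ≠ 0 := by
      intro h
      rw [h, map_zero] at hid
      rw [← hid, norm_zero] at hu
      exact zero_ne_one hu
    have hwn : ‖w‖ ≤ κ i1 ^ 2 := by
      rw [hw]
      refine (ContinuousLinearMap.le_opNorm _ _).trans ?_
      rw [hu, mul_one]
      refine b4.trans ?_
      linarith
    have hT : ∀ s s', ‖s - B i (A i1 p)‖ ≤ r → ‖s' - B i (A i1 p)‖ ≤ r →
        ‖B i1 (A i s') - B i1 (A i s) -
          fderiv ℝ (fun z => B i1 (A i z)) (B i (A i1 p)) (s' - s)‖ ≤ r / Hr := by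
      intro s s' hs hs'
      refine (hs3 (B i (A i1 p)) r hsρ s s' hs hs').trans ?_
      have h8 : ‖s' - s‖ ≤ 2 * r := by
        calc ‖s' - s‖ = ‖(s' - B i (A i1 p)) - (s - B i (A i1 p))‖ := by congr 1; abel
          _ ≤ ‖s' - B i (A i1 p)‖ + ‖s - B i (A i1 p)‖ := norm_sub_le _ _
          _ ≤ 2 * r := by linarith
      rw [le_div_iff₀ (by linarith)]
      have hC := hCq i
      calc Cq i * r * ‖s' - s‖ * Hr ≤ Cq i * r * (2 * r) * Hr := by gcongr
        _ = ((2 * Cq i) * (r * Hr)) * r := by ring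
        _ ≤ 1 * r := by
            have := (z4' i hi).le
            gcongr
        _ = r := one_mul r
    have key := estP (n := n) (h1 := fun w => F r (A i1 w)) (h2 := fun w => F r (A i w))
      (φ := fun y => B i (A i1 y)) (ψ := fun y => B i1 (A i y)) (p := p) (u := u) (w := w)
      (r := r) (κ := κ i1) (ε := ε i1) (H := Hr) (R2 := R i) (ℓ := ℓ)
      (T := fderiv ℝ (fun z => B i1 (A i z)) (B i (A i1 p))) z0
      (by
        show B i1 (A i (B i (A i1 p))) = p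
        rw [(hf.cht i).right b2, (hf.cht i1).left p hpR.le])
      (fun s hs => by
        show F r (A i1 (B i1 (A i s))) = F r (A i s)
        rw [(hf.cht i1).right (hs1 s (hsρ s hs)).2.1])
      (fun s hs => by
        refine (hs2 _ s hs0 (hsρ s hs)).trans ?_
        gcongr)
      hT hw hid hw0 hwn hℓ2 hℓ1 (hf.iF i r zS) (by
        show ‖B i (A i1 p)‖ + r ≤ R i
        rw [hbx]
        exact (z2 i hi).le)
      (b3.contDiffAt.differentiableAt (by simp)) (hf.ε0 i1) (hf.ε1 i1)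
    refine ⟨key.1, ?_⟩
    have k2 : |ℓ (Ml n (fun w => F r (A i w)) (R i) r (B i (A i1 p)) -
      F r (A i (B i (A i1 p))))| ≤ Hr * r := key.2
    have hFx : F r (A i1 p) = F r x := by rw [hAp]
    rwa [(hf.cht i).right b2, hFx] at k2
  -- the patched map
  obtain ⟨fs, hfs⟩ : ∃ fs : E n → E n, fs = fun y => ∑ o ∈ t, Xo χ o (A i1 y) •
      go (F r) A B R r o (A i1 y) := ⟨_, rfl⟩
  have z5' : ∀ᶠ y in 𝓝 p, (∑ o ∈ t, Xo χ o (A i1 y) = 1) ∧
      ∀ r, ∑ o ∈ t, Xo χ o (A i1 y) • go (F r) A B R r o (A i1 y) =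
        Gr (F r) A B R χ r (A i1 y) := by
    rw [← hAp] at z5
    exact hAc.eventually z5
  have hsm : ∀ᶠ y in 𝓝 p, ∀ o ∈ t, ContDiffAt ℝ ∞ (fun y => Xo χ o (A i1 y)) y ∧
      ContDiffAt ℝ ∞ (fun y => go (F r) A B R r o (A i1 y)) y := by
    have w1 : ∀ᶠ y : E n in 𝓝 p, ‖y‖ < R i1 :=
      (isOpen_lt continuous_norm continuous_const).mem_nhds hpR
    have w2 : ∀ᶠ y in 𝓝 p, ∀ i ∈ I, ‖y - B i1 x0‖ < ρ i := by
      refine (Finset.eventually_all I).2 fun i hi => ?_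
      have : Continuous fun q : E n => ‖q - B i1 x0‖ := by fun_prop
      exact (isOpen_lt this continuous_const).mem_nhds (z1 i hi)
    have w3 : ∀ᶠ y in 𝓝 p, x0 ∈ V → ∀ᶠ y' in 𝓝 y, A i1 y' ∈ V := by
      by_cases h : x0 ∈ V
      · have h2 := z8 h
        rw [← hAp] at h2
        filter_upwards [(hAc.eventually h2).eventually_nhds] with y hy _
        exact hy
      · exact Eventually.of_forall fun y h' => absurd h' h
    filter_upwards [w1, w2, w3] with y y1 y2 y3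
    intro o ho
    refine ⟨hf.Xo_contDiffAt o y1.le, ?_⟩
    rcases ht o ho with ⟨rfl, hg⟩ | ⟨i, hi, rfl⟩
    · have h2 : ContDiffAt ℝ ∞ (fun y => Fb (A i1 y)) y :=
        (LD.comp_fun (g := Fb) (f := A i1) (hf.LDb _ (y3 hg).self_of_nhds)
          ((hf.cht i1).ld y y1.le)).contDiffAt
      refine h2.congr_of_eventuallyEq ?_
      filter_upwards [y3 hg] with y' hy'
      exact hf.Feq r zS _ hy'
    · exact (Ml_smooth (hf.iF i r zS) z0).contDiffAt.comp y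
        ((hρ i hi) y (y2 i hi)).2.2.1.contDiffAt
  have hsmp := hsm.self_of_nhds
  have hder : ∀ u : E n, ‖u‖ = 1 → ∃ ℓ : E n →L[ℝ] ℝ, 0 < ℓ (fderiv ℝ fs p u) := by
    intro u hu
    obtain ⟨ℓ, hℓ1, hℓ2⟩ := hcm u hu
    refine ⟨ℓ, ?_⟩
    have h1 := patchP t (fun o y => Xo χ o (A i1 y)) (fun o y => go (F r) A B R r o (A i1 y)) p u
      ℓ (F r x) (Hr * r) D (1 / 2)
      (fun o ho => (hsmp o ho).1.differentiableAt (by simp))
      (fun o ho => (hsmp o ho).2.differentiableAt (by simp))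
      (fun o ho => hf.Xo_nn o _)
      (by filter_upwards [z5'] with y hy; exact hy.1)
      (by
        intro o ho
        rcases ht o ho with ⟨rfl, hg⟩ | ⟨i, hi, rfl⟩
        · obtain ⟨c1, c2, c4, c3⟩ := hρn hg
          have hpn : ‖p - B i1 x0‖ < ρn := by linarith
          have hqn : ∀ q, ‖q - p‖ ≤ r → ‖q - B i1 x0‖ < ρn := by
            intro q hq
            calc ‖q - B i1 x0‖ = ‖(q - p) + (p - B i1 x0)‖ := by congr 1; abel
              _ ≤ ‖q - p‖ + ‖p - B i1 x0‖ := norm_add_le _ _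
              _ < ρn := by linarith
          have hFq : ∀ q, ‖q - p‖ ≤ r → F r (A i1 q) = Fb (A i1 q) := fun q hq =>
            hf.Feq r zS _ (c4 q (hqn q hq))
          have hFev : (fun y => go (F r) A B R r none (A i1 y)) =ᶠ[𝓝 p] fun w => Fb (A i1 w) := by
            have w2 : ∀ᶠ y in 𝓝 p, ‖y - B i1 x0‖ < ρn := by
              have : Continuous fun q : E n => ‖q - B i1 x0‖ := by fun_prop
              exact (isOpen_lt this continuous_const).mem_nhds hpn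
            filter_upwards [w2] with y hy
            exact hf.Feq r zS _ (c4 y hy)
          have hpp : ‖p - p‖ ≤ r := by simpa using z0.le
          rw [hFev.fderiv_eq]
          refine goodP (h1 := fun w => Fb (A i1 w)) (p := p) (u := u) (r := r) (H := Hr)
            (b := ε i1 * r) (ν := ν) (δ := δ) (C := Cn) e (ℓ := ℓ) z0 hu (by linarith) hν0 hδ0
            hCn0 ?_ ?_ c1 ?_ ?_ ?_ hνδ (by linarith) (by linarith)
          · intro q hq
            exact c3 p r hqn p q hpp hq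
          · exact c2 p hpn ((LD.comp_fun (g := Fb) (f := A i1) (hf.LDb _ (c4 p hpn))
              ((hf.cht i1).ld p hpR.le)).contDiffAt.differentiableAt (by simp))
          · intro q hq
            beta_reduce
            rw [← hFq q hq, ← hFq p hpp]
            exact hℓ1 q (hq.trans hκr)
          · have hq1 : ‖(p + r • u) - p‖ ≤ r := by
              rw [add_sub_cancel_left, norm_smul, hu, mul_one, Real.norm_of_nonneg z0.le]
            beta_reduce
            rw [← hFq _ hq1, ← hFq p hpp]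
            refine hℓ2 p (p + r • u) ?_ (hq1.trans hκr) r z0.le ?_
            · rw [sub_self, norm_zero]
              positivity
            · rw [add_sub_cancel_left, sub_self, norm_zero]
              positivity
          · have := hf.ε4 i1
            gcongr
        · exact (hest u hu ℓ hℓ1 hℓ2 i hi).1)
      (by
        intro o ho
        rcases ht o ho with ⟨rfl, hg⟩ | ⟨i, hi, rfl⟩
        · show |ℓ (F r (A i1 p) - F r x)| ≤ _
          rw [hAp, sub_self, map_zero, abs_zero]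
          positivity
        · exact (hest u hu ℓ hℓ1 hℓ2 i hi).2)
      (fun o _ => z6 o) hu hD0
    rw [hfs]
    refine lt_of_lt_of_le ?_ h1
    have h2 : (t.card : ℝ) * (D * (Hr * r)) = (t.card * D) * (r * Hr) := by ring
    rw [h2]
    linarith
  have hLDfs : LD n fs p := by
    refine finishP ?_ hder
    filter_upwards [hsm] with y hy
    rw [hfs]
    exact ContDiffAt.sum fun o ho => (hy o ho).1.smul (hy o ho).2
  have hLDf : LD n (fun y => Gr (F r) A B R χ r (A i1 y)) p := by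
    refine hLDfs.congr ?_
    filter_upwards [z5'] with y hy
    rw [hfs]
    exact (hy.2 r).symm
  have hfin : LD n (fun x' => Gr (F r) A B R χ r (A i1 (B i1 x'))) x := by
    refine LD.comp_fun (g := fun y => Gr (F r) A B R χ r (A i1 y)) (f := B i1) ?_
      ((hf.cht i1).ldB hx1)
    rw [← hp]
    exact hLDf
  refine hfin.congr ?_
  filter_upwards [(hf.cht i1).isOpen.mem_nhds hx1] with x' hx'
  rw [(hf.cht i1).right hx']

end

end Pool.Agent.N824.CR
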